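import Pool.Agent.W630.LT.Stubs

/-! # The counting formula for maps `T³ → S³`: pointwise algebra -/

set_option autoImplicit false

open scoped ContDiff Matrix
open Set
open Pool.Agent.W630.LT

namespace Pool.Agent.W400.LT

/-- determinant of three vectors -/
def d3 (a1 a2 a3 b1 b2 b3 c1 c2 c3 : ℝ) : ℝ :=
  a1 * (b2 * c3 - b3 * c2) - a2 * (b1 * c3 - b3 * c1) + a3 * (b1 * c2 - b2 * c1)

/-- determinant of four vectors (rows) -/
def d4 (a b c d : Fin 4 → ℝ) : ℝ :=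
  a 0 * d3 (b 1) (b 2) (b 3) (c 1) (c 2) (c 3) (d 1) (d 2) (d 3)
  - b 0 * d3 (a 1) (a 2) (a 3) (c 1) (c 2) (c 3) (d 1) (d 2) (d 3)
  + c 0 * d3 (a 1) (a 2) (a 3) (b 1) (b 2) (b 3) (d 1) (d 2) (d 3)
  - d 0 * d3 (a 1) (a 2) (a 3) (b 1) (b 2) (b 3) (c 1) (c 2) (c 3)

/-- square of the norm -/
def sqn (a : Fin 4 → ℝ) : ℝ := a 0 ^ 2 + a 1 ^ 2 + a 2 ^ 2 + a 3 ^ 2

lemma sqn_nonneg (a : Fin 4 → ℝ) : 0 ≤ sqn a := by unfold sqn; positivity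

lemma sqn_pos {a : Fin 4 → ℝ} (h : a ≠ 0) : 0 < sqn a := by
  rcases (sqn_nonneg a).lt_or_eq with h1 | h1
  · exact h1
  · exfalso
    apply h
    unfold sqn at h1
    have h0 := sq_nonneg (a 0)
    have h1' := sq_nonneg (a 1)
    have h2 := sq_nonneg (a 2)
    have h3 := sq_nonneg (a 3)
    have e0 : a 0 = 0 := pow_eq_zero_iff (two_ne_zero) |>.mp (by linarith : a 0 ^ 2 = 0)
    have e1 : a 1 = 0 := pow_eq_zero_iff (two_ne_zero) |>.mp (by linarith : a 1 ^ 2 = 0)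
    have e2 : a 2 = 0 := pow_eq_zero_iff (two_ne_zero) |>.mp (by linarith : a 2 ^ 2 = 0)
    have e3 : a 3 = 0 := pow_eq_zero_iff (two_ne_zero) |>.mp (by linarith : a 3 ^ 2 = 0)
    funext i
    fin_cases i
    · exact e0
    · exact e1
    · exact e2
    · exact e3

lemma det_Q (a : Fin 4 → ℝ) : (Q a).det = ((sqn a : ℝ) : ℂ) := by
  unfold Q sqn
  rw [Matrix.det_fin_two_of]
  push_cast
  linear_combination (-(a 1 : ℂ) ^ 2 - (a 3 : ℂ) ^ 2) * Complex.I_sq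

/-- the conjugate quaternion -/
def cj (a : Fin 4 → ℝ) : Fin 4 → ℝ := ![a 0, -a 1, -a 2, -a 3]

lemma Q_inv {a : Fin 4 → ℝ} (h : sqn a ≠ 0) :
    (Q a)⁻¹ = ((sqn a : ℝ) : ℂ)⁻¹ • Q (cj a) := by
  rw [Matrix.inv_def, det_Q, Ring.inverse_eq_inv']
  congr 1
  unfold Q cj
  rw [Matrix.adjugate_fin_two_of]
  ext i j
  fin_cases i <;> fin_cases j <;> simp <;> ring

/-- the algebraic form of the integrand -/
noncomputable def wq (a b c d : Fin 4 → ℝ) : ℂ :=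
  ((Q a)⁻¹ * Q b * ((Q a)⁻¹ * Q c * ((Q a)⁻¹ * Q d) - (Q a)⁻¹ * Q d * ((Q a)⁻¹ * Q c))).trace

set_option maxHeartbeats 1000000 in
lemma wq_eq {a : Fin 4 → ℝ} (h : sqn a ≠ 0) (b c d : Fin 4 → ℝ) :
    wq a b c d = ((-4 * d4 a b c d / sqn a ^ 2 : ℝ) : ℂ) := by
  have hC : ((sqn a : ℝ) : ℂ) ≠ 0 := by exact_mod_cast h
  have key : (Q (cj a) * Q b * (Q (cj a) * Q c * (Q (cj a) * Q d) -
      Q (cj a) * Q d * (Q (cj a) * Q c))).trace =
      ((-4 * d4 a b c d * sqn a : ℝ) : ℂ) := by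
    unfold Q cj d4 d3 sqn
    simp only [Matrix.cons_val_zero, Matrix.cons_val_one, Matrix.cons_val, Matrix.mul_fin_two,
      Matrix.trace_fin_two, Matrix.sub_apply, Matrix.of_apply]
    apply Complex.ext
    · rw [Complex.ofReal_re]
      simp
      ring
    · rw [Complex.ofReal_im]
      simp
      ring
  unfold wq
  rw [Q_inv h]
  simp only [Matrix.smul_mul, Matrix.mul_smul, ← smul_sub, Matrix.trace_smul, smul_smul]
  rw [key]
  push_cast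
  rw [smul_eq_mul]
  field_simp


/-- euclidean norm -/
noncomputable def nn (a : Fin 4 → ℝ) : ℝ := Real.sqrt (sqn a)

lemma nn_sq (a : Fin 4 → ℝ) : nn a ^ 2 = sqn a := Real.sq_sqrt (sqn_nonneg a)

lemma nn_pos {a : Fin 4 → ℝ} (h : a ≠ 0) : 0 < nn a := Real.sqrt_pos.mpr (sqn_pos h)

/-- scalar product -/
def dt (a b : Fin 4 → ℝ) : ℝ := a 0 * b 0 + a 1 * b 1 + a 2 * b 2 + a 3 * b 3

/-- the conformal dilation -/
noncomputable def dil (M : ℝ) (a : Fin 4 → ℝ) : Fin 4 → ℝ :=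
  ![(nn a + a 0) - M ^ 2 * (nn a - a 0), 2 * M * a 1, 2 * M * a 2, 2 * M * a 3]

/-- its derivative -/
noncomputable def ddil (M : ℝ) (a b : Fin 4 → ℝ) : Fin 4 → ℝ :=
  ![(dt a b / nn a + b 0) - M ^ 2 * (dt a b / nn a - b 0), 2 * M * b 1, 2 * M * b 2, 2 * M * b 3]

/-- the denominator -/
noncomputable def rho (M : ℝ) (a : Fin 4 → ℝ) : ℝ := (nn a + a 0) + M ^ 2 * (nn a - a 0)

lemma abs_le_nn (a : Fin 4 → ℝ) : |a 0| ≤ nn a := by
  apply Real.abs_le_sqrt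
  unfold sqn
  nlinarith [sq_nonneg (a 1), sq_nonneg (a 2), sq_nonneg (a 3)]

lemma rho_pos {M : ℝ} (hM : M ≠ 0) {a : Fin 4 → ℝ} (h : a ≠ 0) : 0 < rho M a := by
  have h1 := abs_le.mp (abs_le_nn a)
  have h2 := nn_pos h
  have h3 : 0 < M ^ 2 := by positivity
  unfold rho
  rcases lt_or_ge 0 (nn a + a 0) with h4 | h4
  · have : 0 ≤ M ^ 2 * (nn a - a 0) := mul_nonneg h3.le (by linarith)
    linarith
  · have : 0 < M ^ 2 * (nn a - a 0) := mul_pos h3 (by linarith)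
    linarith

lemma sqn_dil (M : ℝ) (a : Fin 4 → ℝ) : sqn (dil M a) = rho M a ^ 2 := by
  have h := nn_sq a
  unfold rho
  unfold sqn at *
  unfold dil
  simp only [Matrix.cons_val_zero, Matrix.cons_val_one, Matrix.cons_val]
  linear_combination (-4 * M ^ 2) * h

lemma d4_dil (M : ℝ) {a : Fin 4 → ℝ} (h : a ≠ 0) (b c d : Fin 4 → ℝ) :
    d4 (dil M a) (ddil M a b) (ddil M a c) (ddil M a d) =
      8 * M ^ 3 * d4 a b c d * rho M a / nn a := by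
  have hn := nn_pos h
  have hsq := nn_sq a
  have hb : nn a * (dt a b / nn a) = dt a b := by field_simp
  have hc : nn a * (dt a c / nn a) = dt a c := by field_simp
  have hd : nn a * (dt a d / nn a) = dt a d := by field_simp
  set n := nn a with hndef
  set nb := dt a b / n
  set nc := dt a c / n
  set nd := dt a d / n
  rw [eq_div_iff hn.ne']
  have e1 : n * (n * d3 (b 1) (b 2) (b 3) (c 1) (c 2) (c 3) (d 1) (d 2) (d 3)
      - nb * d3 (a 1) (a 2) (a 3) (c 1) (c 2) (c 3) (d 1) (d 2) (d 3)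
      + nc * d3 (a 1) (a 2) (a 3) (b 1) (b 2) (b 3) (d 1) (d 2) (d 3)
      - nd * d3 (a 1) (a 2) (a 3) (b 1) (b 2) (b 3) (c 1) (c 2) (c 3)) =
      a 0 * d4 a b c d := by
    have e2 : sqn a * d3 (b 1) (b 2) (b 3) (c 1) (c 2) (c 3) (d 1) (d 2) (d 3)
      - dt a b * d3 (a 1) (a 2) (a 3) (c 1) (c 2) (c 3) (d 1) (d 2) (d 3)
      + dt a c * d3 (a 1) (a 2) (a 3) (b 1) (b 2) (b 3) (d 1) (d 2) (d 3)
      - dt a d * d3 (a 1) (a 2) (a 3) (b 1) (b 2) (b 3) (c 1) (c 2) (c 3) =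
      a 0 * d4 a b c d := by
      unfold d4 d3 dt sqn
      ring
    linear_combination e2 + d3 (b 1) (b 2) (b 3) (c 1) (c 2) (c 3) (d 1) (d 2) (d 3) * hsq
      - d3 (a 1) (a 2) (a 3) (c 1) (c 2) (c 3) (d 1) (d 2) (d 3) * hb
      + d3 (a 1) (a 2) (a 3) (b 1) (b 2) (b 3) (d 1) (d 2) (d 3) * hc
      - d3 (a 1) (a 2) (a 3) (b 1) (b 2) (b 3) (c 1) (c 2) (c 3) * hd
  have e3 : d4 (dil M a) (ddil M a b) (ddil M a c) (ddil M a d) =
      8 * M ^ 3 * ((1 - M ^ 2) * (n * d3 (b 1) (b 2) (b 3) (c 1) (c 2) (c 3) (d 1) (d 2) (d 3)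
      - nb * d3 (a 1) (a 2) (a 3) (c 1) (c 2) (c 3) (d 1) (d 2) (d 3)
      + nc * d3 (a 1) (a 2) (a 3) (b 1) (b 2) (b 3) (d 1) (d 2) (d 3)
      - nd * d3 (a 1) (a 2) (a 3) (b 1) (b 2) (b 3) (c 1) (c 2) (c 3)) +
        (1 + M ^ 2) * d4 a b c d) := by
    unfold dil ddil d4 d3
    simp only [Matrix.cons_val_zero, Matrix.cons_val_one, Matrix.cons_val]
    rw [← hndef]
    ring
  rw [e3]
  unfold rho
  linear_combination (8 * M ^ 3 * (1 - M ^ 2)) * e1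

/-- the integrand for the dilated map -/
lemma wq_dil {M : ℝ} (hM : M ≠ 0) {a : Fin 4 → ℝ} (h : a ≠ 0) (b c d : Fin 4 → ℝ) :
    wq (dil M a) (ddil M a b) (ddil M a c) (ddil M a d) =
      ((-4 * (8 * M ^ 3 * d4 a b c d / (nn a * rho M a ^ 3)) : ℝ) : ℂ) := by
  have hr := rho_pos hM h
  have hn := nn_pos h
  rw [wq_eq (by rw [sqn_dil]; positivity), d4_dil M h, sqn_dil]
  congr 1
  field_simp

/-- the derivative of the stereographic projection -/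
lemma det_y {a : Fin 4 → ℝ} (h : a ≠ 0) (hN : nn a + a 0 ≠ 0) (b c d : Fin 4 → ℝ) :
    d3 ((b 1 * (nn a + a 0) - a 1 * (dt a b / nn a + b 0)) / (nn a + a 0) ^ 2)
      ((b 2 * (nn a + a 0) - a 2 * (dt a b / nn a + b 0)) / (nn a + a 0) ^ 2)
      ((b 3 * (nn a + a 0) - a 3 * (dt a b / nn a + b 0)) / (nn a + a 0) ^ 2)
      ((c 1 * (nn a + a 0) - a 1 * (dt a c / nn a + c 0)) / (nn a + a 0) ^ 2)
      ((c 2 * (nn a + a 0) - a 2 * (dt a c / nn a + c 0)) / (nn a + a 0) ^ 2)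
      ((c 3 * (nn a + a 0) - a 3 * (dt a c / nn a + c 0)) / (nn a + a 0) ^ 2)
      ((d 1 * (nn a + a 0) - a 1 * (dt a d / nn a + d 0)) / (nn a + a 0) ^ 2)
      ((d 2 * (nn a + a 0) - a 2 * (dt a d / nn a + d 0)) / (nn a + a 0) ^ 2)
      ((d 3 * (nn a + a 0) - a 3 * (dt a d / nn a + d 0)) / (nn a + a 0) ^ 2) =
      d4 a b c d / (nn a * (nn a + a 0) ^ 3) := by
  have hn := nn_pos h
  have hsq := nn_sq a
  have hb : nn a * (dt a b / nn a) = dt a b := by field_simp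
  have hc : nn a * (dt a c / nn a) = dt a c := by field_simp
  have hd : nn a * (dt a d / nn a) = dt a d := by field_simp
  set n := nn a with hndef
  set nb := dt a b / n
  set nc := dt a c / n
  set nd := dt a d / n
  have e1 : n * (n * d3 (b 1) (b 2) (b 3) (c 1) (c 2) (c 3) (d 1) (d 2) (d 3)
      - nb * d3 (a 1) (a 2) (a 3) (c 1) (c 2) (c 3) (d 1) (d 2) (d 3)
      + nc * d3 (a 1) (a 2) (a 3) (b 1) (b 2) (b 3) (d 1) (d 2) (d 3)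
      - nd * d3 (a 1) (a 2) (a 3) (b 1) (b 2) (b 3) (c 1) (c 2) (c 3)) =
      a 0 * d4 a b c d := by
    have e2 : sqn a * d3 (b 1) (b 2) (b 3) (c 1) (c 2) (c 3) (d 1) (d 2) (d 3)
      - dt a b * d3 (a 1) (a 2) (a 3) (c 1) (c 2) (c 3) (d 1) (d 2) (d 3)
      + dt a c * d3 (a 1) (a 2) (a 3) (b 1) (b 2) (b 3) (d 1) (d 2) (d 3)
      - dt a d * d3 (a 1) (a 2) (a 3) (b 1) (b 2) (b 3) (c 1) (c 2) (c 3) =
      a 0 * d4 a b c d := by
      unfold d4 d3 dt sqn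
      ring
    linear_combination e2 + d3 (b 1) (b 2) (b 3) (c 1) (c 2) (c 3) (d 1) (d 2) (d 3) * hsq
      - d3 (a 1) (a 2) (a 3) (c 1) (c 2) (c 3) (d 1) (d 2) (d 3) * hb
      + d3 (a 1) (a 2) (a 3) (b 1) (b 2) (b 3) (d 1) (d 2) (d 3) * hc
      - d3 (a 1) (a 2) (a 3) (b 1) (b 2) (b 3) (c 1) (c 2) (c 3) * hd
  set N := n + a 0 with hNdef
  have e4 : d3 (b 1 * N - a 1 * (nb + b 0)) (b 2 * N - a 2 * (nb + b 0))
      (b 3 * N - a 3 * (nb + b 0)) (c 1 * N - a 1 * (nc + c 0)) (c 2 * N - a 2 * (nc + c 0))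
      (c 3 * N - a 3 * (nc + c 0)) (d 1 * N - a 1 * (nd + d 0)) (d 2 * N - a 2 * (nd + d 0))
      (d 3 * N - a 3 * (nd + d 0)) = N ^ 2 * ((n * d3 (b 1) (b 2) (b 3) (c 1) (c 2) (c 3) (d 1) (d 2) (d 3)
      - nb * d3 (a 1) (a 2) (a 3) (c 1) (c 2) (c 3) (d 1) (d 2) (d 3)
      + nc * d3 (a 1) (a 2) (a 3) (b 1) (b 2) (b 3) (d 1) (d 2) (d 3)
      - nd * d3 (a 1) (a 2) (a 3) (b 1) (b 2) (b 3) (c 1) (c 2) (c 3)) + d4 a b c d) := by
    rw [hNdef]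
    unfold d4 d3
    ring
  have e5 : n * (N ^ 2 * ((n * d3 (b 1) (b 2) (b 3) (c 1) (c 2) (c 3) (d 1) (d 2) (d 3)
      - nb * d3 (a 1) (a 2) (a 3) (c 1) (c 2) (c 3) (d 1) (d 2) (d 3)
      + nc * d3 (a 1) (a 2) (a 3) (b 1) (b 2) (b 3) (d 1) (d 2) (d 3)
      - nd * d3 (a 1) (a 2) (a 3) (b 1) (b 2) (b 3) (c 1) (c 2) (c 3)) + d4 a b c d)) =
      N ^ 3 * d4 a b c d := by
    rw [hNdef]
    linear_combination ((n + a 0) ^ 2) * e1
  rw [← e4] at e5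
  have e6 : ∀ (x1 x2 x3 y1 y2 y3 z1 z2 z3 : ℝ), d3 (x1 / N ^ 2) (x2 / N ^ 2) (x3 / N ^ 2)
      (y1 / N ^ 2) (y2 / N ^ 2) (y3 / N ^ 2) (z1 / N ^ 2) (z2 / N ^ 2) (z3 / N ^ 2) =
      d3 x1 x2 x3 y1 y2 y3 z1 z2 z3 / N ^ 6 := by
    intro x1 x2 x3 y1 y2 y3 z1 z2 z3
    unfold d3
    field_simp
  rw [e6, div_eq_div_iff (pow_ne_zero _ hN) (mul_ne_zero hn.ne' (pow_ne_zero _ hN))]
  linear_combination (N ^ 3) * e5

end Pool.Agent.W400.LT
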