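import Pool.Agent.W400.LT.CntA

/-! # The counting formula: derivatives and the homotopy to the dilated map -/

set_option autoImplicit false

open scoped ContDiff Matrix
open Set
open Pool.Agent.W630.LT

namespace Pool.Agent.W400.LT

/-- partial derivative -/
noncomputable def pd (u : R3 → Fin 4 → ℝ) (k : Fin 3) (s : R3) : Fin 4 → ℝ :=
  fderiv ℝ u s (Pi.single k 1)

/-- the entries of `Q` are linear -/
noncomputable def QL (i j : Fin 2) : (Fin 4 → ℝ) →ₗ[ℝ] ℂ where
  toFun a := Q a i j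
  map_add' a b := by
    unfold Q
    fin_cases i <;> fin_cases j <;> simp <;> ring
  map_smul' r a := by
    unfold Q
    fin_cases i <;> fin_cases j <;> simp <;> ring

lemma dM_QQ (v : R3 → Fin 4 → ℝ) (k : Fin 3) (s : R3) (h : DifferentiableAt ℝ v s) :
    dM (QQ v) k s = Q (pd v k s) := by
  ext i j
  unfold dM pd
  rw [Matrix.of_apply]
  have h1 : HasFDerivAt (fun s' => QQ v s' i j)
      ((LinearMap.toContinuousLinearMap (QL i j)).comp (fderiv ℝ v s)) s :=
    (LinearMap.toContinuousLinearMap (QL i j)).hasFDerivAt.comp s h.hasFDerivAt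
  rw [h1.fderiv]
  rfl

lemma w_QQ (v : R3 → Fin 4 → ℝ) (s : R3) (h : DifferentiableAt ℝ v s) :
    w (QQ v) s = wq (v s) (pd v 0 s) (pd v 1 s) (pd v 2 s) := by
  unfold w al
  rw [dM_QQ v 0 s h, dM_QQ v 1 s h, dM_QQ v 2 s h]
  rfl

lemma Lp_QQ {v : R3 → Fin 4 → ℝ} (h : Vp v) : Lp (QQ v) where
  smooth := by
    intro i j
    exact (LinearMap.toContinuousLinearMap (QL i j)).contDiff.comp h.smooth
  per := by
    intro k s
    unfold QQ
    rw [h.per k s]
  inv := by
    intro s
    unfold QQ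
    rw [det_Q]
    exact_mod_cast (sqn_pos (h.ne s)).ne'

lemma sqn_smooth {u : R3 → Fin 4 → ℝ} (h : ContDiff ℝ ∞ u) : ContDiff ℝ ∞ (fun s => sqn (u s)) := by
  have := contDiff_pi.mp h
  unfold sqn
  exact (((this 0).pow 2).add ((this 1).pow 2)).add ((this 2).pow 2) |>.add ((this 3).pow 2)

lemma nn_smooth {u : R3 → Fin 4 → ℝ} (h : Vp u) : ContDiff ℝ ∞ (fun s => nn (u s)) :=
  (sqn_smooth h.smooth).sqrt (fun s => (sqn_pos (h.ne s)).ne')

lemma dil_ne {M : ℝ} (hM : M ≠ 0) {a : Fin 4 → ℝ} (h : a ≠ 0) : dil M a ≠ 0 := by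
  intro h0
  have h1 := sqn_dil M a
  rw [h0] at h1
  have h2 : sqn 0 = 0 := by simp [sqn]
  rw [h2] at h1
  have := rho_pos hM h
  have : 0 < rho M a ^ 2 := by positivity
  linarith

lemma Vp_dil {u : R3 → Fin 4 → ℝ} (h : Vp u) {M : ℝ} (hM : M ≠ 0) :
    Vp (fun s => dil M (u s)) where
  smooth := by
    have h0 := contDiff_pi.mp h.smooth
    have h1 := nn_smooth h
    rw [contDiff_pi]
    intro i
    unfold dil
    fin_cases i
    · simp only [Fin.zero_eta, Matrix.cons_val_zero]
      exact (h1.add (h0 0)).sub (contDiff_const.mul (h1.sub (h0 0)))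
    · simp only [Fin.mk_one, Matrix.cons_val_one]
      exact contDiff_const.mul (h0 1)
    · exact contDiff_const.mul (h0 2)
    · exact contDiff_const.mul (h0 3)
  per := by
    intro k s
    simp only
    rw [h.per k s]
  ne := fun s => dil_ne hM (h.ne s)

lemma hasFDerivAt_nn {u : R3 → Fin 4 → ℝ} (h : Vp u) (s : R3) :
    HasFDerivAt (fun s => nn (u s)) (fderiv ℝ (fun s => nn (u s)) s) s :=
  ((nn_smooth h).differentiable (by simp) s).hasFDerivAt

lemma comp_deriv {u : R3 → Fin 4 → ℝ} (h : Vp u) (s : R3) (i : Fin 4) :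
    HasFDerivAt (fun s => u s i) ((ContinuousLinearMap.proj i).comp (fderiv ℝ u s)) s :=
  (hasFDerivAt_pi'.mp ((h.smooth.differentiable (by simp) s).hasFDerivAt)) i

lemma nn_deriv {u : R3 → Fin 4 → ℝ} (h : Vp u) (s : R3) (k : Fin 3) :
    fderiv ℝ (fun s => nn (u s)) s (Pi.single k 1) = dt (u s) (pd u k s) / nn (u s) := by
  have hn := nn_pos (h.ne s)
  have h1 := (hasFDerivAt_nn h s).pow 2
  have h2 : HasFDerivAt (fun s => sqn (u s)) _ s :=
    ((((comp_deriv h s 0).pow 2).add ((comp_deriv h s 1).pow 2)).add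
      ((comp_deriv h s 2).pow 2)).add ((comp_deriv h s 3).pow 2)
  have h3 : (fun s => nn (u s) ^ 2) = fun s => sqn (u s) := by
    funext s; exact nn_sq _
  rw [h3] at h1
  have h4 := congrArg (fun L : R3 →L[ℝ] ℝ => L (Pi.single k 1)) (h1.unique h2)
  simp only [add_apply, smul_apply,
    ContinuousLinearMap.comp_apply, ContinuousLinearMap.proj_apply, smul_eq_mul] at h4
  rw [eq_div_iff hn.ne']
  unfold dt pd
  simp only [Nat.add_one_sub_one, pow_one, nsmul_eq_mul, Nat.cast_ofNat] at h4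
  linarith

lemma pd_dil {u : R3 → Fin 4 → ℝ} (h : Vp u) {M : ℝ} (hM : M ≠ 0) (k : Fin 3) (s : R3) :
    pd (fun s => dil M (u s)) k s = ddil M (u s) (pd u k s) := by
  have hV := Vp_dil h hM
  have hn := hasFDerivAt_nn h s
  have hnd := nn_deriv h s k
  funext i
  have h1 := comp_deriv hV s i
  have h2 : pd (fun s => dil M (u s)) k s i =
      ((ContinuousLinearMap.proj i).comp (fderiv ℝ (fun s => dil M (u s)) s) : R3 →L[ℝ] ℝ)
        (Pi.single k 1) := rfl
  rw [h2, ← h1.fderiv]
  fin_cases i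
  · have h3 : HasFDerivAt (fun s => dil M (u s) 0) _ s :=
      (hn.add (comp_deriv h s 0)).sub ((hn.sub (comp_deriv h s 0)).const_mul (M ^ 2))
    change fderiv ℝ (fun s => dil M (u s) 0) s (Pi.single k 1) = _
    rw [h3.fderiv]
    simp only [add_apply, sub_apply,
      smul_apply, smul_eq_mul, hnd]
    rfl
  · have h3 : HasFDerivAt (fun s => dil M (u s) 1) _ s := (comp_deriv h s 1).const_mul (2 * M)
    change fderiv ℝ (fun s => dil M (u s) 1) s (Pi.single k 1) = _
    rw [h3.fderiv]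
    rfl
  · have h3 : HasFDerivAt (fun s => dil M (u s) 2) _ s := (comp_deriv h s 2).const_mul (2 * M)
    change fderiv ℝ (fun s => dil M (u s) 2) s (Pi.single k 1) = _
    rw [h3.fderiv]
    rfl
  · have h3 : HasFDerivAt (fun s => dil M (u s) 3) _ s := (comp_deriv h s 3).const_mul (2 * M)
    change fderiv ℝ (fun s => dil M (u s) 3) s (Pi.single k 1) = _
    rw [h3.fderiv]
    rfl

/-- the Jacobian density -/
noncomputable def De (u : R3 → Fin 4 → ℝ) (s : R3) : ℝ := d4 (u s) (pd u 0 s) (pd u 1 s) (pd u 2 s)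

/-- the real integrand -/
noncomputable def fM (u : R3 → Fin 4 → ℝ) (M : ℝ) (s : R3) : ℝ :=
  8 * M ^ 3 * De u s / (nn (u s) * rho M (u s) ^ 3)

lemma w_dil {u : R3 → Fin 4 → ℝ} (h : Vp u) {M : ℝ} (hM : M ≠ 0) (s : R3) :
    w (QQ (fun s => dil M (u s))) s = ((-4 * fM u M s : ℝ) : ℂ) := by
  have hV := Vp_dil h hM
  rw [w_QQ _ _ (hV.smooth.differentiable (by simp) s), pd_dil h hM, pd_dil h hM, pd_dil h hM,
    wq_dil hM (h.ne s)]
  rfl

lemma W_dil {u : R3 → Fin 4 → ℝ} (h : Vp u) {M : ℝ} (hM : M ≠ 0) :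
    W (QQ (fun s => dil M (u s))) = ((-4 * ∫ s in Icc (0 : R3) 1, fM u M s : ℝ) : ℂ) := by
  unfold W
  simp_rw [w_dil h hM]
  rw [integral_complex_ofReal, MeasureTheory.integral_const_mul]

lemma dil_one (a : Fin 4 → ℝ) : dil 1 a = (2 : ℝ) • a := by
  funext i
  fin_cases i
  · change (nn a + a 0) - 1 ^ 2 * (nn a - a 0) = 2 * a 0
    ring
  · change 2 * 1 * a 1 = 2 * a 1
    ring
  · change 2 * 1 * a 2 = 2 * a 2
    ring
  · change 2 * 1 * a 3 = 2 * a 3
    ring

/-- homotopy invariance -/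
lemma W_hom (hH : S_HOM) {u : R3 → Fin 4 → ℝ} (h : Vp u) {M : ℝ} (hM : 1 ≤ M) :
    W (QQ u) = ((-4 * ∫ s in Icc (0 : R3) 1, fM u M s : ℝ) : ℂ) := by
  rw [← W_dil h (by linarith)]
  have huc := h.smooth.continuous
  have hc : ∀ i, Continuous fun s => u s i := fun i => (continuous_apply i).comp huc
  have hnc := (nn_smooth h).continuous
  -- first homotopy
  have h1 := hH (Fin 2) (fun t s => QQ (fun s => (1 + t) • u s) s) (by
    intro t ht
    have hsm : ContDiff ℝ ∞ (fun s => (1 + t) • u s) := h.smooth.const_smul (1 + t)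
    refine Lp_QQ ⟨hsm, ?_, ?_⟩
    · intro k s
      simp only
      rw [h.per k s]
    · intro s
      exact smul_ne_zero (by have := ht.1; linarith) (h.ne s)) (by
    intro i j
    apply Continuous.continuousOn
    have : Continuous fun p : ℝ × R3 => (1 + p.1) • u p.2 := by fun_prop
    exact (LinearMap.toContinuousLinearMap (QL i j)).continuous.comp this)
  have h2 := hH (Fin 2) (fun t s => QQ (fun s => dil (1 + t * (M - 1)) (u s)) s) (by
    intro t ht
    have : 0 ≤ t * (M - 1) := mul_nonneg ht.1 (by linarith)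
    exact Lp_QQ (Vp_dil h (by linarith))) (by
    intro i j
    apply Continuous.continuousOn
    have : Continuous fun p : ℝ × R3 => dil (1 + p.1 * (M - 1)) (u p.2) := by
      unfold dil
      refine continuous_pi fun i => ?_
      have hc' : ∀ i, Continuous fun p : ℝ × R3 => u p.2 i := fun i => (hc i).comp continuous_snd
      have hn' : Continuous fun p : ℝ × R3 => nn (u p.2) := hnc.comp continuous_snd
      have h0 := hc' 0
      have h1 := hc' 1
      have h2 := hc' 2
      have h3 := hc' 3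
      fin_cases i
      · simp only [Fin.zero_eta, Matrix.cons_val_zero]; fun_prop
      · simp only [Fin.mk_one, Matrix.cons_val_one]; fun_prop
      · change Continuous fun p : ℝ × R3 => 2 * (1 + p.1 * (M - 1)) * u p.2 2
        fun_prop
      · change Continuous fun p : ℝ × R3 => 2 * (1 + p.1 * (M - 1)) * u p.2 3
        fun_prop
    exact (LinearMap.toContinuousLinearMap (QL i j)).continuous.comp this)
  have e1 : (fun s => QQ (fun s => (1 + (0 : ℝ)) • u s) s) = QQ u := by
    funext s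
    unfold QQ
    simp
  have e2 : (fun s => QQ (fun s => (1 + (1 : ℝ)) • u s) s) =
      fun s => QQ (fun s => dil (1 + 0 * (M - 1)) (u s)) s := by
    funext s
    change Q ((1 + (1 : ℝ)) • u s) = Q (dil (1 + 0 * (M - 1)) (u s))
    rw [zero_mul, add_zero, dil_one]
    norm_num
  have e3 : (fun s => QQ (fun s => dil (1 + 1 * (M - 1)) (u s)) s) = QQ (fun s => dil M (u s)) := by
    funext s
    change Q (dil (1 + 1 * (M - 1)) (u s)) = Q (dil M (u s))
    rw [show 1 + 1 * (M - 1) = M by ring]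
  rw [e1, e2] at h1
  rw [e3] at h2
  rw [h1, h2]

end Pool.Agent.W400.LT
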