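import Pool.Agent.W400.LT.CntB

/-! # The counting formula: the local contribution of a point -/

set_option autoImplicit false

open scoped ContDiff Matrix Topology
open Set Filter MeasureTheory
open Pool.Agent.W630.LT

namespace Pool.Agent.W400.LT

/-! ### concentration -/

/-- square of the norm on `ℝ³` -/
def q3 (y : R3) : ℝ := y 0 ^ 2 + y 1 ^ 2 + y 2 ^ 2

/-- the bump -/
noncomputable def FM (M : ℝ) (y : R3) : ℝ := 8 * M ^ 3 / (1 + M ^ 2 * q3 y) ^ 3

lemma q3_nonneg (y : R3) : 0 ≤ q3 y := by unfold q3; positivity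

lemma norm_sq_le_q3 (y : R3) : ‖y‖ ^ 2 ≤ q3 y := by
  obtain ⟨i, hi⟩ : ∃ i, ‖y‖ = ‖y i‖ := by
    obtain ⟨i, hi⟩ := Finite.exists_max (fun i => ‖y i‖)
    refine ⟨i, le_antisymm ?_ (norm_le_pi_norm y i)⟩
    exact (pi_norm_le_iff_of_nonneg (norm_nonneg _)).mpr hi
  rw [hi, Real.norm_eq_abs, sq_abs]
  unfold q3
  fin_cases i
  · change y 0 ^ 2 ≤ y 0 ^ 2 + y 1 ^ 2 + y 2 ^ 2
    nlinarith [sq_nonneg (y 1), sq_nonneg (y 2)]
  · change y 1 ^ 2 ≤ y 0 ^ 2 + y 1 ^ 2 + y 2 ^ 2
    nlinarith [sq_nonneg (y 0), sq_nonneg (y 2)]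
  · change y 2 ^ 2 ≤ y 0 ^ 2 + y 1 ^ 2 + y 2 ^ 2
    nlinarith [sq_nonneg (y 0), sq_nonneg (y 1)]

lemma FM_cont (M : ℝ) : Continuous (FM M) := by
  unfold FM
  refine Continuous.div (by fun_prop) (by unfold q3; fun_prop) ?_
  intro y
  have := q3_nonneg y
  positivity

lemma F1_pos (y : R3) : 0 < FM 1 y := by
  unfold FM
  have := q3_nonneg y
  positivity

lemma F1_integrable : Integrable (FM 1) := by
  have h1 : Integrable (fun y : R3 => 8 * (1 + ‖y‖ ^ 2) ^ (-(6 : ℝ) / 2)) :=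
    (integrable_rpow_neg_one_add_norm_sq (by simp; norm_num)).const_mul 8
  refine h1.mono' (FM_cont 1).aestronglyMeasurable (Eventually.of_forall fun y => ?_)
  rw [Real.norm_of_nonneg (F1_pos y).le]
  unfold FM
  have h2 := norm_sq_le_q3 y
  have h3 : (0 : ℝ) < 1 + ‖y‖ ^ 2 := by positivity
  rw [show (-(6 : ℝ) / 2) = -((3 : ℕ) : ℝ) by norm_num, Real.rpow_neg h3.le, Real.rpow_natCast,
    ← div_eq_mul_inv, one_pow, mul_one, one_pow, one_mul]
  gcongr

/-- the total mass -/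
noncomputable def C0 : ℝ := ∫ y, FM 1 y

lemma C0_pos : 0 < C0 := by
  unfold C0
  rw [integral_pos_iff_support_of_nonneg (fun y => (F1_pos y).le) F1_integrable]
  have : Function.support (FM 1) = univ := by
    ext y; simp [(F1_pos y).ne']
  rw [this]
  exact isOpen_univ.measure_pos volume univ_nonempty

lemma FM_scale {M : ℝ} (y : R3) : FM M y = M ^ 3 * FM 1 (M • y) := by
  unfold FM q3
  simp only [Pi.smul_apply, smul_eq_mul]
  rw [one_pow, mul_one, one_pow, one_mul, mul_div_assoc']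
  congr 1
  · ring
  · ring

lemma conc {V : Set R3} (hV : IsOpen V) (h0 : (0 : R3) ∈ V) :
    Tendsto (fun M : ℕ => ∫ y in V, FM ((M : ℝ) + 1) y) atTop (𝓝 C0) := by
  have h1 : ∀ M : ℕ, ∫ y in V, FM ((M : ℝ) + 1) y =
      ∫ x, V.indicator (fun _ => (1 : ℝ)) (((M : ℝ) + 1)⁻¹ • x) * FM 1 x := by
    intro M
    have hM : (0 : ℝ) < (M : ℝ) + 1 := by positivity
    rw [← integral_indicator hV.measurableSet]
    have h2 := Measure.integral_comp_smul (volume : Measure R3)
      (fun x => V.indicator (fun _ => (1 : ℝ)) (((M : ℝ) + 1)⁻¹ • x) * FM 1 x) ((M : ℝ) + 1)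
    have h3 : Module.finrank ℝ R3 = 3 := by simp
    rw [h3, abs_of_pos (by positivity), smul_eq_mul] at h2
    have h4 : ∫ x, V.indicator (fun _ => (1 : ℝ)) (((M : ℝ) + 1)⁻¹ • x) * FM 1 x =
        ((M : ℝ) + 1) ^ 3 * ∫ x : R3, V.indicator (fun _ => (1 : ℝ))
          (((M : ℝ) + 1)⁻¹ • (((M : ℝ) + 1) • x)) * FM 1 (((M : ℝ) + 1) • x) := by
      rw [h2]
      field_simp
    rw [h4, ← integral_const_mul]
    congr 1
    funext y
    rw [smul_smul, inv_mul_cancel₀ hM.ne', one_smul]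
    by_cases hy : y ∈ V
    · rw [indicator_of_mem hy, indicator_of_mem hy, FM_scale]; ring
    · rw [indicator_of_notMem hy, indicator_of_notMem hy]; ring
  simp_rw [h1]
  refine tendsto_integral_of_dominated_convergence (FM 1) ?_ F1_integrable ?_ ?_
  · intro M
    refine AEStronglyMeasurable.mul ?_ (FM_cont 1).aestronglyMeasurable
    have hm : Measurable fun x : R3 => V.indicator (fun _ => (1 : ℝ)) (((M : ℝ) + 1)⁻¹ • x) :=
      (measurable_const.indicator hV.measurableSet).comp (measurable_const_smul _)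
    exact hm.aestronglyMeasurable
  · intro M
    refine Eventually.of_forall fun x => ?_
    rw [norm_mul, Real.norm_of_nonneg (F1_pos x).le]
    have : ‖V.indicator (fun _ => (1 : ℝ)) (((M : ℝ) + 1)⁻¹ • x)‖ ≤ 1 := by
      by_cases hy : ((M : ℝ) + 1)⁻¹ • x ∈ V
      · rw [indicator_of_mem hy]; simp
      · rw [indicator_of_notMem hy]; simp
    nlinarith [F1_pos x]
  · refine Eventually.of_forall fun x => ?_
    have h2 : Tendsto (fun M : ℕ => ((M : ℝ) + 1)⁻¹ • x) atTop (𝓝 ((0 : ℝ) • x)) := by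
      refine Tendsto.smul_const ?_ x
      exact tendsto_inv_atTop_zero.comp (tendsto_atTop_add_const_right _ _
        tendsto_natCast_atTop_atTop)
    rw [zero_smul] at h2
    refine Tendsto.congr' ?_ tendsto_const_nhds
    filter_upwards [h2.eventually (hV.mem_nhds h0)] with M hM
    rw [indicator_of_mem hM, one_mul]

/-! ### the stereographic coordinate -/

/-- the denominator -/
noncomputable def NN (u : R3 → Fin 4 → ℝ) (s : R3) : ℝ := nn (u s) + u s 0

/-- the stereographic coordinate -/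
noncomputable def yy (u : R3 → Fin 4 → ℝ) (s : R3) : R3 := fun j => u s j.succ / NN u s

lemma NN_smooth {u : R3 → Fin 4 → ℝ} (h : Vp u) : ContDiff ℝ ∞ (NN u) :=
  (nn_smooth h).add (contDiff_pi.mp h.smooth 0)

lemma yy_smooth {u : R3 → Fin 4 → ℝ} (h : Vp u) {s : R3} (hs : NN u s ≠ 0) :
    ContDiffAt ℝ ∞ (yy u) s := by
  rw [contDiffAt_pi]
  intro j
  exact (contDiff_pi.mp h.smooth j.succ).contDiffAt.div (NN_smooth h).contDiffAt hs

lemma yy_deriv {u : R3 → Fin 4 → ℝ} (h : Vp u) {s : R3} (hs : NN u s ≠ 0) (k j : Fin 3) :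
    fderiv ℝ (yy u) s (Pi.single k 1) j =
      (pd u k s j.succ * (nn (u s) + u s 0) -
        u s j.succ * (dt (u s) (pd u k s) / nn (u s) + pd u k s 0)) / (nn (u s) + u s 0) ^ 2 := by
  have hd : DifferentiableAt ℝ (yy u) s := (yy_smooth h hs).differentiableAt (by simp)
  have h1 : HasFDerivAt (fun s => yy u s j) ((ContinuousLinearMap.proj j).comp
      (fderiv ℝ (yy u) s)) s := (hasFDerivAt_pi'.mp hd.hasFDerivAt) j
  have hN : HasFDerivAt (NN u) _ s := (hasFDerivAt_nn h s).add (comp_deriv h s 0)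
  have h2 := h1.mul hN
  have hev : (fun s => yy u s j * NN u s) =ᶠ[𝓝 s] fun s => u s j.succ := by
    have hc : ContinuousAt (NN u) s := (NN_smooth h).continuous.continuousAt
    filter_upwards [hc.eventually_ne hs] with x hx
    unfold yy
    field_simp
  have h3 := h2.congr_of_eventuallyEq hev.symm
  have h4 := congrArg (fun L : R3 →L[ℝ] ℝ => L (Pi.single k 1)) (h3.unique (comp_deriv h s j.succ))
  simp only [add_apply, smul_apply, ContinuousLinearMap.comp_apply,
    ContinuousLinearMap.proj_apply, smul_eq_mul, nn_deriv h] at h4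
  change yy u s j * (dt (u s) (pd u k s) / nn (u s) + pd u k s 0) +
    NN u s * fderiv ℝ (yy u) s (Pi.single k 1) j = pd u k s j.succ at h4
  have h5 : yy u s j = u s j.succ / NN u s := rfl
  rw [h5] at h4
  have h6 : NN u s = nn (u s) + u s 0 := rfl
  rw [← h6]
  rw [eq_div_iff (pow_ne_zero 2 hs)]
  field_simp at h4
  have h7 := nn_pos (h.ne s)
  field_simp
  field_simp at h4
  linear_combination h4

lemma yy_det {u : R3 → Fin 4 → ℝ} (h : Vp u) {s : R3} (hs : NN u s ≠ 0) :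
    (fderiv ℝ (yy u) s).det = De u s / (nn (u s) * NN u s ^ 3) := by
  have h1 := det_y (h.ne s) hs (pd u 0 s) (pd u 1 s) (pd u 2 s)
  have h2 : (fderiv ℝ (yy u) s).det =
      (LinearMap.toMatrix' ((fderiv ℝ (yy u) s : R3 →L[ℝ] R3) : R3 →ₗ[ℝ] R3)).det := by
    rw [LinearMap.det_toMatrix']
  unfold De NN
  rw [h2, ← h1, Matrix.det_fin_three]
  have h3 : ∀ i j : Fin 3, LinearMap.toMatrix' ((fderiv ℝ (yy u) s : R3 →L[ℝ] R3) : R3 →ₗ[ℝ] R3) i j
      = fderiv ℝ (yy u) s (Pi.single j 1) i := by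
    intro i j
    rw [LinearMap.toMatrix'_apply]
    congr 2
  simp only [h3, yy_deriv h hs]
  unfold d3
  simp only [Fin.succ_zero_eq_one, Fin.succ_one_eq_two,
    show (2 : Fin 3).succ = (3 : Fin 4) from rfl]
  ring

end Pool.Agent.W400.LT
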