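import Pool.Agent.W400.LT.CntC

/-! # The counting formula: local contributions and the limit -/

set_option autoImplicit false

open scoped ContDiff Matrix Topology
open Set Filter MeasureTheory
open Pool.Agent.W630.LT

namespace Pool.Agent.W400.LT

lemma pd_cont {u : R3 → Fin 4 → ℝ} (h : Vp u) (k : Fin 3) : Continuous (pd u k) :=
  (h.smooth.continuous_fderiv (by simp)).clm_apply continuous_const

lemma De_cont {u : R3 → Fin 4 → ℝ} (h : Vp u) : Continuous (De u) := by
  have hu : ∀ i, Continuous fun s => u s i := fun i => (continuous_apply i).comp h.smooth.continuous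
  have hp : ∀ k i, Continuous fun s => pd u k s i :=
    fun k i => (continuous_apply i).comp (pd_cont h k)
  unfold De d4 d3
  fun_prop

/-- the point is sent to the positive ray of `e₀` -/
def Zr (u : R3 → Fin 4 → ℝ) (s : R3) : Prop := 0 < u s 0 ∧ ∀ j : Fin 3, u s j.succ = 0

lemma Zr_nn {u : R3 → Fin 4 → ℝ} {s : R3} (h : Zr u s) : nn (u s) = u s 0 := by
  unfold nn sqn
  have h1 : u s 1 = 0 := h.2 0
  have h2 : u s 2 = 0 := h.2 1
  have h3 : u s 3 = 0 := h.2 2
  rw [h1, h2, h3]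
  simp
  exact Real.sqrt_sq h.1.le

lemma Zr_iff {u : R3 → Fin 4 → ℝ} (h : Vp u) (s : R3) : Zr u s ↔ nn (u s) - u s 0 = 0 := by
  constructor
  · intro hz
    rw [Zr_nn hz, sub_self]
  · intro hz
    have h1 : nn (u s) = u s 0 := by linarith
    have h2 := nn_sq (u s)
    have h3 := nn_pos (h.ne s)
    rw [h1] at h2 h3
    unfold sqn at h2
    refine ⟨h3, ?_⟩
    have a1 := sq_nonneg (u s 1)
    have a2 := sq_nonneg (u s 2)
    have a3 := sq_nonneg (u s 3)
    have e1 : u s 1 = 0 := pow_eq_zero_iff (two_ne_zero) |>.mp (by linarith : u s 1 ^ 2 = 0)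
    have e2 : u s 2 = 0 := pow_eq_zero_iff (two_ne_zero) |>.mp (by linarith : u s 2 ^ 2 = 0)
    have e3 : u s 3 = 0 := pow_eq_zero_iff (two_ne_zero) |>.mp (by linarith : u s 3 ^ 2 = 0)
    intro j
    fin_cases j
    · exact e1
    · exact e2
    · exact e3

lemma De_Zr {u : R3 → Fin 4 → ℝ} {s : R3} (h : Zr u s) : De u s = u s 0 * (Jac u s).det := by
  have h1 : u s 1 = 0 := h.2 0
  have h2 : u s 2 = 0 := h.2 1
  have h3 : u s 3 = 0 := h.2 2
  rw [Matrix.det_fin_three]
  unfold De d4 d3 Jac pd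
  simp only [Matrix.of_apply, h1, h2, h3, Fin.succ_zero_eq_one, Fin.succ_one_eq_two,
    show (2 : Fin 3).succ = (3 : Fin 4) from rfl]
  ring

/-- sign as a real number -/
noncomputable def sg (x : ℝ) : ℝ := ((SignType.sign x : ℤ) : ℝ)

lemma sg_mul_self {x : ℝ} (h : x ≠ 0) : sg x * sg x = 1 := by
  unfold sg
  rcases lt_or_gt_of_ne h with h | h
  · rw [sign_neg h]; simp
  · rw [sign_pos h]; simp

lemma sg_mul_pos {x : ℝ} (h : x ≠ 0) : 0 < sg x * x := by
  unfold sg
  rcases lt_or_gt_of_ne h with h | h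
  · rw [sign_neg h]; simp; exact h
  · rw [sign_pos h]; simp; exact h

lemma sg_abs {x : ℝ} (h : x ≠ 0) : |sg x| = 1 := by
  unfold sg
  rcases lt_or_gt_of_ne h with h | h
  · rw [sign_neg h]; simp
  · rw [sign_pos h]; simp

/-- the local contribution -/
lemma local_count {u : R3 → Fin 4 → ℝ} (h : Vp u) {z : R3} (hz : Zr u z)
    (hJ : (Jac u z).det ≠ 0) {O : Set R3} (hO : IsOpen O) (hzO : z ∈ O) :
    ∃ U : Set R3, IsOpen U ∧ z ∈ U ∧ U ⊆ O ∧ (∀ s ∈ U, Zr u s → s = z) ∧
      Tendsto (fun M : ℕ => ∫ s in U, fM u ((M : ℝ) + 1) s) atTop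
        (𝓝 (sg (Jac u z).det * C0)) := by
  set σ := sg (Jac u z).det with hσ
  have hσ1 : σ * σ = 1 := sg_mul_self hJ
  have hσa : |σ| = 1 := sg_abs hJ
  have hn : nn (u z) = u z 0 := Zr_nn hz
  have hNz : 0 < NN u z := by unfold NN; rw [hn]; linarith [hz.1]
  have hDz : 0 < σ * De u z := by
    rw [De_Zr hz]
    have := sg_mul_pos hJ
    have := hz.1
    calc (0 : ℝ) < u z 0 * (σ * (Jac u z).det) := by positivity
      _ = σ * (u z 0 * (Jac u z).det) := by ring
  have hdet : (fderiv ℝ (yy u) z).det ≠ 0 := by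
    rw [yy_det h hNz.ne']
    have h1 : De u z ≠ 0 := by intro h0; rw [h0, mul_zero] at hDz; exact lt_irrefl _ hDz
    have h2 := nn_pos (h.ne z)
    positivity
  have hstrict : HasStrictFDerivAt (yy u)
      (((fderiv ℝ (yy u) z).toContinuousLinearEquivOfDetNeZero hdet : R3 ≃L[ℝ] R3) : R3 →L[ℝ] R3)
      z := by
    rw [ContinuousLinearMap.coe_toContinuousLinearEquivOfDetNeZero]
    exact (yy_smooth h hNz.ne').hasStrictFDerivAt (by simp)
  set e := hstrict.toOpenPartialHomeomorph (yy u) with he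
  have hze : z ∈ e.source := hstrict.mem_toOpenPartialHomeomorph_source
  have hey : ∀ s, e s = yy u s := fun s => rfl
  have hNc : Continuous (NN u) := (NN_smooth h).continuous
  have hDc := De_cont h
  set U : Set R3 := (e.source ∩ O) ∩ ({s | 0 < NN u s} ∩ {s | 0 < σ * De u s}) with hU
  have hUo : IsOpen U := (e.open_source.inter hO).inter
    ((isOpen_lt continuous_const hNc).inter
      (isOpen_lt continuous_const (continuous_const.mul hDc)))
  have hzU : z ∈ U := ⟨⟨hze, hzO⟩, hNz, hDz⟩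
  have hUs : U ⊆ e.source := fun s hs => hs.1.1
  have hinj : InjOn (yy u) U := fun s hs t ht hst => e.injOn (hUs hs) (hUs ht) hst
  have hyz : ∀ s, Zr u s → yy u s = 0 := by
    intro s hs
    funext j
    unfold yy
    rw [hs.2 j, zero_div]
    rfl
  have himg : IsOpen (yy u '' U) := e.isOpen_image_of_subset_source hUo hUs
  have h0img : (0 : R3) ∈ yy u '' U := ⟨z, hzU, hyz z hz⟩
  refine ⟨U, hUo, hzU, fun s hs => hs.1.2, ?_, ?_⟩
  · intro s hs hZs
    exact hinj hs hzU (by rw [hyz s hZs, hyz z hz])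
  · have key : ∀ M : ℕ, ∫ s in U, fM u ((M : ℝ) + 1) s =
        σ * ∫ y in yy u '' U, FM ((M : ℝ) + 1) y := by
      intro M
      have hM : (0 : ℝ) < (M : ℝ) + 1 := by positivity
      rw [integral_image_eq_integral_abs_det_fderiv_smul (f' := fderiv ℝ (yy u)) volume
        hUo.measurableSet
        (fun s hs => ((yy_smooth h hs.2.1.ne').differentiableAt
          (by simp)).hasFDerivAt.hasFDerivWithinAt) hinj, ← integral_const_mul]
      refine setIntegral_congr_fun hUo.measurableSet fun s hs => ?_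
      have hN : 0 < NN u s := hs.2.1
      have hD : 0 < σ * De u s := hs.2.2
      have hns := nn_pos (h.ne s)
      have hr := rho_pos hM.ne' (h.ne s)
      rw [yy_det h hN.ne', smul_eq_mul]
      have h1 : |De u s / (nn (u s) * NN u s ^ 3)| = σ * De u s / (nn (u s) * NN u s ^ 3) := by
        rw [← one_mul |_|, ← hσa, ← abs_mul, mul_div_assoc']
        exact abs_of_pos (by positivity)
      have h2 : 1 + ((M : ℝ) + 1) ^ 2 * q3 (yy u s) = rho ((M : ℝ) + 1) (u s) / NN u s := by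
        have h3 : q3 (yy u s) = (nn (u s) - u s 0) / NN u s := by
          have h4 := nn_sq (u s)
          have h5 : yy u s 0 = u s 1 / NN u s := rfl
          have h6 : yy u s 1 = u s 2 / NN u s := rfl
          have h7 : yy u s 2 = u s 3 / NN u s := rfl
          unfold q3
          rw [h5, h6, h7]
          field_simp
          unfold NN
          unfold sqn at h4
          linear_combination -h4
        rw [h3]
        field_simp
        unfold rho NN
        ring
      rw [h1]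
      unfold FM fM
      rw [h2]
      field_simp
      linear_combination (-De u s) * hσ1
    simp_rw [key]
    exact (conc himg h0img).const_mul σ

/-- no contribution away from the zeros -/
lemma away {u : R3 → Fin 4 → ℝ} (h : Vp u) {K : Set R3} (hK : IsCompact K)
    (hz : ∀ s ∈ K, ¬ Zr u s) :
    Tendsto (fun M : ℕ => ∫ s in K, fM u ((M : ℝ) + 1) s) atTop (𝓝 0) := by
  have hnc : Continuous fun s => nn (u s) := (nn_smooth h).continuous
  have huc : Continuous fun s => u s 0 := (continuous_apply 0).comp h.smooth.continuous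
  have hDc := De_cont h
  rcases K.eq_empty_or_nonempty with hKe | hKn
  · rw [hKe]; simp
  have hpos : ∀ s ∈ K, 0 < nn (u s) - u s 0 := by
    intro s hs
    have h1 := (abs_le.mp (abs_le_nn (u s))).2
    have h2 : nn (u s) - u s 0 ≠ 0 := fun h0 => hz s hs ((Zr_iff h s).mpr h0)
    exact lt_of_le_of_ne (by linarith) (Ne.symm h2)
  obtain ⟨s0, hs0, hmin⟩ := hK.exists_isMinOn hKn
    (f := fun s => nn (u s) - u s 0) (hnc.sub huc).continuousOn
  set δ := nn (u s0) - u s0 0 with hδ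
  have hδ0 : 0 < δ := hpos s0 hs0
  obtain ⟨s1, hs1, hmin1⟩ := hK.exists_isMinOn hKn (f := fun s => nn (u s)) hnc.continuousOn
  set ν := nn (u s1) with hν
  have hν0 : 0 < ν := nn_pos (h.ne s1)
  obtain ⟨s2, hs2, hmax⟩ := hK.exists_isMaxOn hKn (f := fun s => |De u s|) hDc.abs.continuousOn
  set D := |De u s2| with hD
  have hb : ∀ (M : ℕ), ∀ s ∈ K, ‖fM u ((M : ℝ) + 1) s‖ ≤ (8 * D / (ν * δ ^ 3)) *
      ((M : ℝ) + 1)⁻¹ := by
    intro M s hs
    have hM : (1 : ℝ) ≤ (M : ℝ) + 1 := by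
      have : (0 : ℝ) ≤ M := Nat.cast_nonneg M
      linarith
    have hM0 : (0 : ℝ) < (M : ℝ) + 1 := by linarith
    have h1 : δ ≤ nn (u s) - u s 0 := hmin hs
    have h2 : ν ≤ nn (u s) := hmin1 hs
    have h3 : |De u s| ≤ D := hmax hs
    have h4 : ((M : ℝ) + 1) ^ 2 * δ ≤ rho ((M : ℝ) + 1) (u s) := by
      unfold rho
      have h5 := (abs_le.mp (abs_le_nn (u s))).1
      have h6 : ((M : ℝ) + 1) ^ 2 * δ ≤ ((M : ℝ) + 1) ^ 2 * (nn (u s) - u s 0) := by gcongr
      linarith
    have h7 : 0 < ((M : ℝ) + 1) ^ 2 * δ := by positivity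
    have h8 : 0 < rho ((M : ℝ) + 1) (u s) := by linarith
    have h9 : 0 < nn (u s) := by linarith
    unfold fM
    rw [Real.norm_eq_abs, abs_div, abs_mul, abs_of_pos (show 0 < 8 * ((M : ℝ) + 1) ^ 3 by positivity),
      abs_of_pos (show 0 < nn (u s) * rho ((M : ℝ) + 1) (u s) ^ 3 by positivity)]
    calc 8 * ((M : ℝ) + 1) ^ 3 * |De u s| / (nn (u s) * rho ((M : ℝ) + 1) (u s) ^ 3)
        ≤ 8 * ((M : ℝ) + 1) ^ 3 * D / (ν * (((M : ℝ) + 1) ^ 2 * δ) ^ 3) := by gcongr
      _ = (8 * D / (ν * δ ^ 3)) * (((M : ℝ) + 1)⁻¹) ^ 3 := by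
          field_simp
      _ ≤ (8 * D / (ν * δ ^ 3)) * (((M : ℝ) + 1)⁻¹) := by
          have h10 : ((M : ℝ) + 1)⁻¹ ≤ 1 := inv_le_one_of_one_le₀ hM
          have h11 : 0 ≤ ((M : ℝ) + 1)⁻¹ := by positivity
          have h12 : (((M : ℝ) + 1)⁻¹) ^ 3 ≤ ((M : ℝ) + 1)⁻¹ := by
            calc (((M : ℝ) + 1)⁻¹) ^ 3 ≤ (((M : ℝ) + 1)⁻¹) ^ 1 :=
                  pow_le_pow_of_le_one h11 h10 (by norm_num)
              _ = _ := pow_one _
          have h13 : 0 ≤ 8 * D / (ν * δ ^ 3) := by positivity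
          exact mul_le_mul_of_nonneg_left h12 h13
  have hlim : Tendsto (fun M : ℕ => (8 * D / (ν * δ ^ 3)) * ((M : ℝ) + 1)⁻¹ *
      (volume.real K)) atTop (𝓝 0) := by
    have h1 : Tendsto (fun M : ℕ => ((M : ℝ) + 1)⁻¹) atTop (𝓝 0) :=
      tendsto_inv_atTop_zero.comp (tendsto_atTop_add_const_right _ _ tendsto_natCast_atTop_atTop)
    have h2 := (h1.const_mul (8 * D / (ν * δ ^ 3))).mul_const (volume.real K)
    simpa using h2
  refine squeeze_zero_norm (fun M => ?_) hlim
  exact norm_setIntegral_le_of_norm_le_const hK.measure_lt_top (hb M)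

end Pool.Agent.W400.LT
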