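import Pool.Agent.W400.LT.CntD

/-! # The counting formula: the box, the shift, the final statement -/

set_option autoImplicit false

open scoped ContDiff Matrix Topology
open Set Filter MeasureTheory
open Pool.Agent.W630.LT

namespace Pool.Agent.W400.LT

lemma fM_cont {u : R3 → Fin 4 → ℝ} (h : Vp u) {M : ℝ} (hM : M ≠ 0) : Continuous (fM u M) := by
  have hnc : Continuous fun s => nn (u s) := (nn_smooth h).continuous
  have huc : Continuous fun s => u s 0 := (continuous_apply 0).comp h.smooth.continuous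
  have hDc := De_cont h
  unfold fM
  refine Continuous.div (by fun_prop) (by unfold rho; fun_prop) ?_
  intro s
  have h1 := nn_pos (h.ne s)
  have h2 := rho_pos hM (h.ne s)
  positivity

lemma Zr_closed {u : R3 → Fin 4 → ℝ} (h : Vp u) : IsClosed {s | Zr u s} := by
  have hnc : Continuous fun s => nn (u s) := (nn_smooth h).continuous
  have huc : Continuous fun s => u s 0 := (continuous_apply 0).comp h.smooth.continuous
  have : {s | Zr u s} = {s | nn (u s) - u s 0 = 0} := by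
    ext s
    exact Zr_iff h s
  rw [this]
  exact isClosed_eq (hnc.sub huc) continuous_const

/-- the set of zeros in a compact set is finite -/
lemma Zr_finite {u : R3 → Fin 4 → ℝ} (h : Vp u) (hnd : ∀ s, Zr u s → (Jac u s).det ≠ 0)
    {K : Set R3} (hK : IsCompact K) : {s | s ∈ K ∧ Zr u s}.Finite := by
  have hc : IsCompact {s | s ∈ K ∧ Zr u s} := hK.inter_right (Zr_closed h)
  have hex : ∀ z : R3, ∃ U : Set R3, (Zr u z → U ∈ 𝓝 z ∧ ∀ s ∈ U, Zr u s → s = z) := by
    intro z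
    by_cases hz : Zr u z
    · obtain ⟨U, h1, h2, _, h4, _⟩ := local_count h hz (hnd z hz) isOpen_univ (mem_univ z)
      exact ⟨U, fun _ => ⟨h1.mem_nhds h2, h4⟩⟩
    · exact ⟨univ, fun h => absurd h hz⟩
  choose U hU using hex
  obtain ⟨t, ht, hcov⟩ := hc.elim_nhds_subcover U (fun z hz => (hU z hz.2).1)
  refine t.finite_toSet.subset ?_
  intro s hs
  obtain ⟨z, hz, hsz⟩ := mem_iUnion₂.mp (hcov hs)
  have := (hU z (ht z hz).2).2 s hsz hs.2
  rw [this]
  exact hz

/-- the limit over the box -/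
lemma box_count {u : R3 → Fin 4 → ℝ} (h : Vp u) (hnd : ∀ s, Zr u s → (Jac u s).det ≠ 0)
    (hbd : ∀ s ∈ Icc (0 : R3) 1, Zr u s → ∀ k, 0 < s k ∧ s k < 1) (Z : Finset R3)
    (hZ : ∀ s, s ∈ Z ↔ s ∈ Icc (0 : R3) 1 ∧ Zr u s) :
    Tendsto (fun M : ℕ => ∫ s in Icc (0 : R3) 1, fM u ((M : ℝ) + 1) s) atTop
      (𝓝 (∑ z ∈ Z, sg (Jac u z).det * C0)) := by
  classical
  obtain ⟨T, hT1, hT2⟩ := (Z.finite_toSet).t2_separation
  have hbox : IsOpen {s : R3 | ∀ k, 0 < s k ∧ s k < 1} := by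
    have : {s : R3 | ∀ k, 0 < s k ∧ s k < 1} =
        ⋂ k, {s : R3 | 0 < s k} ∩ {s : R3 | s k < 1} := by
      ext s; simp
    rw [this]
    exact isOpen_iInter_of_finite fun k =>
      (isOpen_lt continuous_const (continuous_apply k)).inter
        (isOpen_lt (continuous_apply k) continuous_const)
  have hex : ∀ z : R3, ∃ V : Set R3, z ∈ Z → (IsOpen V ∧ z ∈ V ∧
      V ⊆ T z ∩ {s : R3 | ∀ k, 0 < s k ∧ s k < 1} ∧ (∀ s ∈ V, Zr u s → s = z) ∧
      Tendsto (fun M : ℕ => ∫ s in V, fM u ((M : ℝ) + 1) s) atTop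
        (𝓝 (sg (Jac u z).det * C0))) := by
    intro z
    by_cases hz : z ∈ Z
    · obtain ⟨h1, h2⟩ := (hZ z).mp hz
      obtain ⟨V, hV⟩ := local_count h h2 (hnd z h2)
        (((hT1 z).2).inter hbox) ⟨(hT1 z).1, hbd z h1 h2⟩
      exact ⟨V, fun _ => hV⟩
    · exact ⟨∅, fun h => absurd h hz⟩
  choose V hV using hex
  have hVo : ∀ z ∈ Z, IsOpen (V z) := fun z hz => (hV z hz).1
  set Vu : Set R3 := ⋃ z ∈ Z, V z with hVu
  have hVuo : IsOpen Vu := isOpen_biUnion hVo
  have hVsub : Vu ⊆ Icc (0 : R3) 1 := by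
    intro s hs
    obtain ⟨z, hz, hsz⟩ := mem_iUnion₂.mp hs
    have h1 := ((hV z hz).2.2.1 hsz).2
    exact ⟨fun k => (h1 k).1.le, fun k => (h1 k).2.le⟩
  have hdisj : (Z : Set R3).Pairwise (Function.onFun Disjoint V) := by
    intro a ha b hb hab
    have h1 := hT2 ha hb hab
    exact h1.mono (fun s hs => ((hV a ha).2.2.1 hs).1) (fun s hs => ((hV b hb).2.2.1 hs).1)
  set K : Set R3 := Icc (0 : R3) 1 \ Vu with hK
  have hKc : IsCompact K := isCompact_Icc.diff hVuo
  have hKz : ∀ s ∈ K, ¬ Zr u s := by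
    intro s hs hz
    apply hs.2
    have h1 : s ∈ Z := (hZ s).mpr ⟨hs.1, hz⟩
    exact mem_iUnion₂.mpr ⟨s, h1, (hV s h1).2.1⟩
  have hsplit : ∀ M : ℕ, ∫ s in Icc (0 : R3) 1, fM u ((M : ℝ) + 1) s =
      (∫ s in K, fM u ((M : ℝ) + 1) s) + ∑ z ∈ Z, ∫ s in V z, fM u ((M : ℝ) + 1) s := by
    intro M
    have hM : (M : ℝ) + 1 ≠ 0 := by positivity
    have hint : IntegrableOn (fM u ((M : ℝ) + 1)) (Icc (0 : R3) 1) :=
      (fM_cont h hM).continuousOn.integrableOn_compact isCompact_Icc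
    have h1 : Icc (0 : R3) 1 = K ∪ Vu := by rw [hK, sdiff_union_of_subset hVsub]
    rw [← integral_biUnion_finset Z (fun z hz => (hVo z hz).measurableSet) hdisj
      (fun z hz => hint.mono_set (fun s hs => hVsub (mem_iUnion₂.mpr ⟨z, hz, hs⟩)))]
    conv_lhs => rw [h1]
    rw [setIntegral_union disjoint_sdiff_left hVuo.measurableSet
      (hint.mono_set sdiff_subset) (hint.mono_set hVsub)]
  simp_rw [hsplit]
  have h1 := (away h hKc hKz).add (tendsto_finsetSum Z fun z hz => (hV z hz).2.2.2.2)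
  rw [zero_add] at h1
  exact h1

/-- the formula for the box without zeros on the boundary -/
lemma W_box (hH : S_HOM) {u : R3 → Fin 4 → ℝ} (h : Vp u)
    (hnd : ∀ s, Zr u s → (Jac u s).det ≠ 0)
    (hbd : ∀ s ∈ Icc (0 : R3) 1, Zr u s → ∀ k, 0 < s k ∧ s k < 1) (Z : Finset R3)
    (hZ : ∀ s, s ∈ Z ↔ s ∈ Icc (0 : R3) 1 ∧ Zr u s) :
    W (QQ u) = ((-4 * C0 : ℝ) : ℂ) * ∑ z ∈ Z, ((SignType.sign (Jac u z).det : ℤ) : ℂ) := by
  have h1 := box_count h hnd hbd Z hZ
  have h2 : ∀ M : ℕ, W (QQ u) = ((-4 * ∫ s in Icc (0 : R3) 1, fM u ((M : ℝ) + 1) s : ℝ) : ℂ) := by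
    intro M
    refine W_hom hH h ?_
    have : (0 : ℝ) ≤ M := Nat.cast_nonneg M
    linarith
  have h3 : Tendsto (fun M : ℕ => ((-4 * ∫ s in Icc (0 : R3) 1, fM u ((M : ℝ) + 1) s : ℝ) : ℂ))
      atTop (𝓝 ((-4 * ∑ z ∈ Z, sg (Jac u z).det * C0 : ℝ) : ℂ)) :=
    (Complex.continuous_ofReal.tendsto _).comp (h1.const_mul (-4))
  have h4 : Tendsto (fun M : ℕ => ((-4 * ∫ s in Icc (0 : R3) 1, fM u ((M : ℝ) + 1) s : ℝ) : ℂ))
      atTop (𝓝 (W (QQ u))) := by
    simp_rw [← h2]
    exact tendsto_const_nhds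
  rw [tendsto_nhds_unique h4 h3, Complex.ofReal_mul, Complex.ofReal_sum, Complex.ofReal_mul,
    Finset.mul_sum, Finset.mul_sum]
  refine Finset.sum_congr rfl fun z _ => ?_
  have e : ((sg (Jac u z).det : ℝ) : ℂ) = ((SignType.sign (Jac u z).det : ℤ) : ℂ) :=
    Complex.ofReal_intCast _
  rw [Complex.ofReal_mul, e]
  ring


/-! ### the shift -/

lemma per_int {V : Type} {g : R3 → V} (h : Per g) (k : Fin 3) (m : ℤ) (s : R3) :
    g (s + Pi.single k (m : ℝ)) = g s := by
  have h1 : ∀ n : ℕ, ∀ s : R3, g (s + Pi.single k (n : ℝ)) = g s := by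
    intro n
    induction n with
    | zero => intro s; simp
    | succ n ih =>
      intro s
      have : s + Pi.single k ((n + 1 : ℕ) : ℝ) = (s + Pi.single k (n : ℝ)) + Pi.single k 1 := by
        rw [add_assoc, ← Pi.single_add]; push_cast; rfl
      rw [this, h, ih]
  rcases Int.eq_nat_or_neg m with ⟨n, rfl | rfl⟩
  · exact_mod_cast h1 n s
  · have h2 := h1 n (s + Pi.single k ((-(n : ℤ) : ℤ) : ℝ))
    rw [← h2, add_assoc, ← Pi.single_add]
    simp

lemma per_vec {V : Type} {g : R3 → V} (h : Per g) (m : Fin 3 → ℤ) (s : R3) :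
    g (fun k => s k + m k) = g s := by
  have e : (fun k => s k + (m k : ℝ)) = ((s + Pi.single 0 (m 0 : ℝ)) + Pi.single 1 (m 1 : ℝ)) +
      Pi.single 2 (m 2 : ℝ) := by
    funext k
    fin_cases k <;> simp
  rw [e, per_int h, per_int h, per_int h]

lemma Per_pd {u : R3 → Fin 4 → ℝ} (h : Per u) : Per (fun s => fderiv ℝ u s) := by
  intro k s
  have h1 : (fun s => u (s + Pi.single k 1)) = u := by funext s; exact h k s
  have h2 := fderiv_comp_add_right (𝕜 := ℝ) (f := u) (x := s) (Pi.single k 1)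
  rw [h1] at h2
  exact h2.symm

lemma Per_Jac {u : R3 → Fin 4 → ℝ} (h : Per u) : Per (fun s => (Jac u s).det) := by
  intro k s
  have h1 : fderiv ℝ u (s + Pi.single k 1) = fderiv ℝ u s := Per_pd h k s
  unfold Jac
  simp only [h1]

lemma Per_Zr {u : R3 → Fin 4 → ℝ} (h : Per u) : Per (fun s => Zr u s) := by
  intro k s
  simp only [Zr, h k s]

/-- fractional parts -/
noncomputable def fr (s : R3) : R3 := fun k => Int.fract (s k)

lemma fr_eq (s : R3) : s = fun k => fr s k + ((⌊s k⌋ : ℤ) : ℝ) := by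
  funext k
  unfold fr
  exact (Int.fract_add_floor (s k)).symm

lemma per_fr {V : Type} {g : R3 → V} (h : Per g) (s : R3) : g (fr s) = g s := by
  conv_rhs => rw [fr_eq s]
  exact (per_vec h (fun k => ⌊s k⌋) (fr s)).symm

lemma fr_mem (s : R3) : ∀ k, 0 ≤ fr s k ∧ fr s k < 1 :=
  fun k => ⟨Int.fract_nonneg _, Int.fract_lt_one _⟩

lemma fr_of_mem {s : R3} (h : ∀ k, 0 ≤ s k ∧ s k < 1) : fr s = s := by
  funext k
  exact Int.fract_eq_self.mpr (h k)

theorem cnt (hH : S_HOM) : S_CNT := by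
  classical
  refine ⟨((-4 * C0 : ℝ) : ℂ), ?_, ?_⟩
  · have := C0_pos
    exact_mod_cast (by nlinarith : (-4 * C0 : ℝ) ≠ 0)
  intro u hu hnd'
  have hnd : ∀ s, Zr u s → (Jac u s).det ≠ 0 := fun s hs => hnd' s hs.1 hs.2
  -- finite set of zeros in the box
  have hfin := Zr_finite hu hnd (isCompact_Icc (a := (0 : R3)) (b := 1))
  set Z1 : Finset R3 := hfin.toFinset with hZ1
  have hmem1 : ∀ s, s ∈ Z1 ↔ s ∈ Icc (0 : R3) 1 ∧ Zr u s := by
    intro s; rw [hZ1, Set.Finite.mem_toFinset]; rfl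
  set Z : Finset R3 := Z1.filter (fun s => ∀ k, 0 ≤ s k ∧ s k < 1) with hZ
  have hZmem : ∀ s, s ∈ Z ↔ (∀ k, 0 ≤ s k ∧ s k < 1) ∧ Zr u s := by
    intro s
    rw [hZ, Finset.mem_filter, hmem1]
    constructor
    · rintro ⟨⟨_, h1⟩, h2⟩
      exact ⟨h2, h1⟩
    · rintro ⟨h1, h2⟩
      exact ⟨⟨⟨fun k => (h1 k).1, fun k => (h1 k).2.le⟩, h2⟩, h1⟩
  refine ⟨Z, fun s => hZmem s, ?_⟩
  -- choice of the shift
  have hex : ∀ k : Fin 3, ∃ a : ℝ, 0 < a ∧ a < 1 ∧ ∀ z ∈ Z, z k ≠ a := by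
    intro k
    have h1 : ((Ioo (0 : ℝ) 1) \ ((Z.image (fun z => z k) : Finset ℝ) : Set ℝ)).Nonempty :=
      ((Ioo_infinite one_pos).sdiff (Finset.finite_toSet _)).nonempty
    obtain ⟨a, ⟨ha1, ha2⟩, ha3⟩ := h1
    refine ⟨a, ha1, ha2, ?_⟩
    intro z hz hza
    apply ha3
    rw [Finset.mem_coe, Finset.mem_image]
    exact ⟨z, hz, hza⟩
  choose a ha0 ha1 haz using hex
  set v : R3 → Fin 4 → ℝ := fun s => u (s + a) with hv
  have hfd : ∀ s, fderiv ℝ v s = fderiv ℝ u (s + a) := fun s => fderiv_comp_add_right a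
  have hJv : ∀ s, Jac v s = Jac u (s + a) := by
    intro s
    unfold Jac
    rw [hfd]
  have hZv : ∀ s, Zr v s ↔ Zr u (s + a) := fun s => Iff.rfl
  have hVv : Vp v := by
    refine ⟨hu.smooth.comp (contDiff_id.add contDiff_const), ?_, fun s => hu.ne _⟩
    intro k s
    rw [hv]
    simp only
    rw [show s + Pi.single k 1 + a = (s + a) + Pi.single k 1 by abel, hu.per]
  -- homotopy
  have hW : W (QQ u) = W (QQ v) := by
    have h1 := hH (Fin 2) (fun t s => QQ (fun s => u (s + t • a)) s) (by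
      intro t _
      refine Lp_QQ ⟨hu.smooth.comp (contDiff_id.add contDiff_const), ?_, fun s => hu.ne _⟩
      intro k s
      simp only
      rw [show s + Pi.single k 1 + t • a = (s + t • a) + Pi.single k 1 by abel, hu.per]) (by
      intro i j
      apply Continuous.continuousOn
      have hc : Continuous fun p : ℝ × R3 => u (p.2 + p.1 • a) :=
        hu.smooth.continuous.comp (by fun_prop)
      exact (LinearMap.toContinuousLinearMap (QL i j)).continuous.comp hc)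
    have e1 : (fun s => QQ (fun s => u (s + (0 : ℝ) • a)) s) = QQ u := by
      funext s
      unfold QQ
      simp
    have e2 : (fun s => QQ (fun s => u (s + (1 : ℝ) • a)) s) = QQ v := by
      funext s
      unfold QQ
      rw [hv]
      simp
    rw [e1, e2] at h1
    exact h1
  have hndv : ∀ s, Zr v s → (Jac v s).det ≠ 0 := by
    intro s hs
    rw [hJv]
    exact hnd _ hs
  -- zeros of v avoid the boundary
  have hfrz : ∀ s, Zr v s → fr (s + a) ∈ Z := by
    intro s hs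
    rw [hZmem]
    refine ⟨fr_mem _, ?_⟩
    rw [per_fr (Per_Zr hu.per)]
    exact hs
  have hbdv : ∀ s ∈ Icc (0 : R3) 1, Zr v s → ∀ k, 0 < s k ∧ s k < 1 := by
    intro s hs hz k
    have h1 := haz k _ (hfrz s hz)
    have h0 : (0 : ℝ) ≤ s k := hs.1 k
    have h2 : s k ≤ 1 := hs.2 k
    have h3 : fr (s + a) k = Int.fract (s k + a k) := rfl
    have h4 : Int.fract (a k) = a k := Int.fract_eq_self.mpr ⟨(ha0 k).le, ha1 k⟩
    constructor
    · rcases h0.lt_or_eq with h5 | h5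
      · exact h5
      · exfalso; apply h1
        rw [h3, ← h5, zero_add, h4]
    · rcases h2.lt_or_eq with h5 | h5
      · exact h5
      · exfalso; apply h1
        rw [h3, h5, Int.fract_one_add, h4]
  -- the finite set for v
  have hfinv := Zr_finite hVv hndv (isCompact_Icc (a := (0 : R3)) (b := 1))
  set Zv : Finset R3 := hfinv.toFinset with hZvdef
  have hmemv : ∀ s, s ∈ Zv ↔ s ∈ Icc (0 : R3) 1 ∧ Zr v s := by
    intro s; rw [hZvdef, Set.Finite.mem_toFinset]; rfl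
  have hlt : ∀ s ∈ Zv, ∀ k, 0 ≤ s k ∧ s k < 1 := by
    intro s hs k
    obtain ⟨h1, h2⟩ := (hmemv s).mp hs
    have := hbdv s h1 h2 k
    exact ⟨this.1.le, this.2⟩
  rw [hW, W_box hH hVv hndv hbdv Zv hmemv]
  congr 1
  -- bijection
  have hfr2 : ∀ x y : R3, fr (fun k => fr x k + y k) = fr (fun k => x k + y k) := by
    intro x y
    funext k
    unfold fr
    have : Int.fract (x k) + y k = (x k + y k) + ((-⌊x k⌋ : ℤ) : ℝ) := by
      have := Int.fract_add_floor (x k)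
      push_cast
      linarith
    simp only
    rw [this, Int.fract_add_intCast]
  refine Finset.sum_nbij' (fun s => fr (s + a)) (fun z => fr (z - a)) ?_ ?_ ?_ ?_ ?_
  · intro s hs
    exact hfrz s ((hmemv s).mp hs).2
  · intro z hz
    obtain ⟨h1, h2⟩ := (hZmem z).mp hz
    rw [hmemv]
    refine ⟨⟨fun k => (fr_mem _ k).1, fun k => (fr_mem _ k).2.le⟩, ?_⟩
    have h3 : Zr v (fr (z - a)) = Zr v (z - a) := per_fr (Per_Zr hVv.per) (z - a)
    rw [h3, hZv, sub_add_cancel]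
    exact h2
  · intro s hs
    have h1 := hfr2 (s + a) (-a)
    have h2 : (fun k => fr (s + a) k + (-a) k) = fr (s + a) - a := by
      funext k; simp [sub_eq_add_neg]
    have h3 : (fun k => (s + a) k + (-a) k) = s := by
      funext k; simp
    rw [h2, h3] at h1
    rw [h1]
    exact fr_of_mem (hlt s hs)
  · intro z hz
    have h1 := hfr2 (z - a) a
    have h3 : (fun k => (z - a) k + a k) = z := by
      funext k; simp
    rw [h3] at h1
    have h2 : (fun k => fr (z - a) k + a k) = fr (z - a) + a := rfl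
    rw [h2] at h1
    rw [h1]
    exact fr_of_mem ((hZmem z).mp hz).1
  · intro s _
    have h1 : (Jac u (fr (s + a))).det = (Jac u (s + a)).det := per_fr (Per_Jac hu.per) (s + a)
    rw [hJv, h1]

end Pool.Agent.W400.LT
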