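import Pool.Agent.W400.LT.CntE

/-! # Integrality of `W (QQ u)` -/

set_option autoImplicit false

open scoped ContDiff Matrix Topology
open Set Filter MeasureTheory
open Pool.Agent.W630.LT

namespace Pool.Agent.W400.LT

/-- the product of quaternions -/
def pm (p a : Fin 4 → ℝ) : Fin 4 → ℝ :=
  ![p 0 * a 0 - p 1 * a 1 - p 2 * a 2 - p 3 * a 3,
    p 0 * a 1 + p 1 * a 0 + p 2 * a 3 - p 3 * a 2,
    p 0 * a 2 - p 1 * a 3 + p 2 * a 0 + p 3 * a 1,
    p 0 * a 3 + p 1 * a 2 - p 2 * a 1 + p 3 * a 0]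

lemma Q_pm (p a : Fin 4 → ℝ) : Q (pm p a) = Q p * Q a := by
  unfold Q pm
  rw [Matrix.mul_fin_two]
  ext i j
  fin_cases i <;> fin_cases j <;> apply Complex.ext <;> simp <;> ring

lemma pm_cj (v : Fin 4 → ℝ) : pm (cj v) v = ![sqn v, 0, 0, 0] := by
  funext i
  fin_cases i <;> simp [pm, cj, sqn] <;> ring

lemma pm_cj' (v a : Fin 4 → ℝ) : pm v (pm (cj v) a) = sqn v • a := by
  funext i
  fin_cases i <;> simp [pm, cj, sqn] <;> ring

lemma pm_smul (p a : Fin 4 → ℝ) (r : ℝ) : pm p (r • a) = r • pm p a := by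
  funext i
  fin_cases i <;> simp [pm] <;> ring

lemma sqn_pm (p a : Fin 4 → ℝ) : sqn (pm p a) = sqn p * sqn a := by
  unfold sqn pm
  simp only [Matrix.cons_val_zero, Matrix.cons_val_one, Matrix.cons_val]
  ring

lemma d4_pm (p a b c d : Fin 4 → ℝ) :
    d4 (pm p a) (pm p b) (pm p c) (pm p d) = sqn p ^ 2 * d4 a b c d := by
  unfold d4 d3 pm sqn
  simp only [Matrix.cons_val_zero, Matrix.cons_val_one, Matrix.cons_val]
  ring

/-- left multiplication as a linear map -/
def pmL (p : Fin 4 → ℝ) : (Fin 4 → ℝ) →ₗ[ℝ] (Fin 4 → ℝ) where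
  toFun := pm p
  map_add' a b := by
    funext i
    fin_cases i <;> simp [pm] <;> ring
  map_smul' r a := pm_smul p a r

lemma Vp_pm {u : R3 → Fin 4 → ℝ} (h : Vp u) {p : Fin 4 → ℝ} (hp : p ≠ 0) :
    Vp (fun s => pm p (u s)) where
  smooth := (LinearMap.toContinuousLinearMap (pmL p)).contDiff.comp h.smooth
  per := by
    intro k s
    simp only
    rw [h.per k s]
  ne := by
    intro s h0
    have h1 := sqn_pm p (u s)
    rw [h0] at h1
    have h2 : sqn 0 = 0 := by simp [sqn]
    rw [h2] at h1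
    have := sqn_pos hp
    have := sqn_pos (h.ne s)
    have : 0 < sqn p * sqn (u s) := by positivity
    linarith

lemma pd_pm {u : R3 → Fin 4 → ℝ} (h : Vp u) (p : Fin 4 → ℝ) (k : Fin 3) (s : R3) :
    pd (fun s => pm p (u s)) k s = pm p (pd u k s) := by
  have h1 : HasFDerivAt (fun s => pm p (u s))
      ((LinearMap.toContinuousLinearMap (pmL p)).comp (fderiv ℝ u s)) s :=
    (LinearMap.toContinuousLinearMap (pmL p)).hasFDerivAt.comp s
      (h.smooth.differentiable (by simp) s).hasFDerivAt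
  unfold pd
  rw [h1.fderiv]
  rfl

lemma w_eq {u : R3 → Fin 4 → ℝ} (h : Vp u) (s : R3) :
    w (QQ u) s = ((-4 * De u s / sqn (u s) ^ 2 : ℝ) : ℂ) := by
  rw [w_QQ _ _ (h.smooth.differentiable (by simp) s), wq_eq (sqn_pos (h.ne s)).ne']
  rfl

lemma De_pm {u : R3 → Fin 4 → ℝ} (h : Vp u) (p : Fin 4 → ℝ) (s : R3) :
    De (fun s => pm p (u s)) s = sqn p ^ 2 * De u s := by
  unfold De
  rw [pd_pm h, pd_pm h, pd_pm h, d4_pm]

lemma W_pm {u : R3 → Fin 4 → ℝ} (h : Vp u) {p : Fin 4 → ℝ} (hp : p ≠ 0) :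
    W (QQ (fun s => pm p (u s))) = W (QQ u) := by
  have key : w (QQ (fun s => pm p (u s))) = w (QQ u) := by
    funext s
    have h1 := sqn_pos hp
    have h2 := sqn_pos (h.ne s)
    rw [w_eq (Vp_pm h hp) s, w_eq h s, De_pm h, sqn_pm]
    have h3 : -4 * (sqn p ^ 2 * De u s) / (sqn p * sqn (u s)) ^ 2 =
        -4 * De u s / sqn (u s) ^ 2 := by field_simp
    rw [h3]
  unfold W
  rw [key]

/-- the cone map -/
def Psi (u : R3 → Fin 4 → ℝ) (x : Fin 4 → ℝ) : Fin 4 → ℝ := x 0 • u (fun k => x k.succ)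

/-- the projection to the last coordinates -/
def tl : (Fin 4 → ℝ) →ₗ[ℝ] R3 where
  toFun x := fun k => x k.succ
  map_add' _ _ := rfl
  map_smul' _ _ := rfl

lemma Psi_deriv {u : R3 → Fin 4 → ℝ} (h : Vp u) (x : Fin 4 → ℝ) :
    HasFDerivAt (Psi u) (x 0 • (fderiv ℝ u (tl x)).comp (LinearMap.toContinuousLinearMap tl) +
      (ContinuousLinearMap.proj (R := ℝ) (φ := fun _ : Fin 4 => ℝ) 0).smulRight (u (tl x))) x := by
  have h1 : HasFDerivAt (fun x : Fin 4 → ℝ => u (tl x))
      ((fderiv ℝ u (tl x)).comp (LinearMap.toContinuousLinearMap tl)) x :=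
    HasFDerivAt.comp x (h.smooth.differentiable (by simp) (tl x)).hasFDerivAt
      (LinearMap.toContinuousLinearMap tl).hasFDerivAt
  have h2 : HasFDerivAt (fun x : Fin 4 → ℝ => x 0)
      (ContinuousLinearMap.proj (R := ℝ) (φ := fun _ : Fin 4 => ℝ) 0) x :=
    (ContinuousLinearMap.proj (R := ℝ) (φ := fun _ : Fin 4 => ℝ) 0).hasFDerivAt
  exact h2.fun_smul h1

lemma det4 (A : Matrix (Fin 4) (Fin 4) ℝ) : A.det = d4 (fun i => A i 0) (fun i => A i 1)
    (fun i => A i 2) (fun i => A i 3) := by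
  rw [Matrix.det_succ_row_zero]
  simp only [Fin.sum_univ_succ, Matrix.det_fin_three, Matrix.submatrix_apply]
  unfold d4 d3
  simp [Fin.succAbove]
  ring


lemma det_cols (L : (Fin 4 → ℝ) →L[ℝ] (Fin 4 → ℝ)) :
    L.det = d4 (L (Pi.single 0 1)) (L (Pi.single 1 1)) (L (Pi.single 2 1)) (L (Pi.single 3 1)) := by
  have h2 : L.det = (LinearMap.toMatrix' (L : (Fin 4 → ℝ) →ₗ[ℝ] (Fin 4 → ℝ))).det := by
    rw [LinearMap.det_toMatrix']
  have h3 : ∀ i j : Fin 4, LinearMap.toMatrix' (L : (Fin 4 → ℝ) →ₗ[ℝ] (Fin 4 → ℝ)) i j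
      = L (Pi.single j 1) i := by
    intro i j
    rw [LinearMap.toMatrix'_apply]
    congr 2
  rw [h2, det4]
  simp only [h3]

lemma Psi_det {u : R3 → Fin 4 → ℝ} (h : Vp u) (x : Fin 4 → ℝ) :
    (fderiv ℝ (Psi u) x).det = x 0 ^ 3 * De u (tl x) := by
  rw [(Psi_deriv h x).fderiv, det_cols]
  have t0 : tl (Pi.single 0 1) = 0 := by
    funext k; simp [tl]
  have t1 : ∀ k : Fin 3, tl (Pi.single k.succ 1) = Pi.single k 1 := by
    intro k
    funext l
    simp [tl, Pi.single_apply]
  have c0 : (x 0 • (fderiv ℝ u (tl x)).comp (LinearMap.toContinuousLinearMap tl) +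
      (ContinuousLinearMap.proj (R := ℝ) (φ := fun _ : Fin 4 => ℝ) 0).smulRight (u (tl x)))
      (Pi.single 0 1) = u (tl x) := by
    funext i
    simp [t0]
  have ck : ∀ (k : Fin 3), (x 0 • (fderiv ℝ u (tl x)).comp (LinearMap.toContinuousLinearMap tl) +
      (ContinuousLinearMap.proj (R := ℝ) (φ := fun _ : Fin 4 => ℝ) 0).smulRight (u (tl x)))
      (Pi.single k.succ 1) = x 0 • pd u k (tl x) := by
    intro k
    funext i
    simp [t1, pd]
  have c1 := ck 0
  have c2 := ck 1
  have c3 := ck 2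
  simp only [Fin.succ_zero_eq_one, Fin.succ_one_eq_two, show (2 : Fin 3).succ = (3 : Fin 4) from rfl]
    at c1 c2 c3
  rw [c0, c1, c2, c3]
  unfold De d4 d3
  simp only [Pi.smul_apply, smul_eq_mul]
  ring

/-- a direction for which all positive preimages are nondegenerate -/
lemma exists_reg {u : R3 → Fin 4 → ℝ} (h : Vp u) : ∃ v : Fin 4 → ℝ, v ≠ 0 ∧
    ∀ s, ∀ r : ℝ, 0 < r → u s = r • v → De u s ≠ 0 := by
  set S : Set (Fin 4 → ℝ) := {x | (fderiv ℝ (Psi u) x).det = 0} with hS
  have h1 : volume (Psi u '' S) = 0 :=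
    addHaar_image_eq_zero_of_det_fderivWithin_eq_zero volume
      (fun x _ => ((Psi_deriv h x).differentiableAt.hasFDerivAt).hasFDerivWithinAt)
      (fun x hx => hx)
  have h2 : volume (Psi u '' S ∪ {0}) = 0 := by
    rw [measure_union_null_iff]
    exact ⟨h1, by simp⟩
  have h3 : ∃ v, v ∉ Psi u '' S ∪ {0} := by
    by_contra hc
    push Not at hc
    have h4 : Psi u '' S ∪ {0} = univ := by
      ext v; simp only [mem_univ, iff_true]; exact hc v
    rw [h4] at h2
    have h5 : 0 < volume (univ : Set (Fin 4 → ℝ)) := isOpen_univ.measure_pos volume univ_nonempty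
    exact h5.ne' h2
  obtain ⟨v, hv⟩ := h3
  refine ⟨v, fun h0 => hv (Or.inr h0), ?_⟩
  intro s r hr hs hD
  apply hv
  left
  refine ⟨Fin.cons r⁻¹ s, ?_, ?_⟩
  · change (fderiv ℝ (Psi u) _).det = 0
    rw [Psi_det h]
    have : tl (Fin.cons r⁻¹ s) = s := by funext k; simp [tl]
    rw [this, hD, mul_zero]
  · unfold Psi
    have : (fun k : Fin 3 => (Fin.cons r⁻¹ s : Fin 4 → ℝ) k.succ) = s := by funext k; simp
    rw [this, hs, Fin.cons_zero, smul_smul, inv_mul_cancel₀ hr.ne', one_smul]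

/-- the example -/
noncomputable def uex (s : R3) : Fin 4 → ℝ :=
  ![-2 + Real.cos (2 * Real.pi * s 0) + Real.cos (2 * Real.pi * s 1) +
    Real.cos (2 * Real.pi * s 2), Real.sin (2 * Real.pi * s 0), Real.sin (2 * Real.pi * s 1),
    Real.sin (2 * Real.pi * s 2)]

lemma uex_smooth : ContDiff ℝ ∞ uex := by
  rw [contDiff_pi]
  intro i
  unfold uex
  have h : ∀ k : Fin 3, ContDiff ℝ ∞ (fun s : R3 => 2 * Real.pi * s k) :=
    fun k => contDiff_const.mul (contDiff_apply ℝ ℝ k)
  fin_cases i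
  · exact ((contDiff_const.add (Real.contDiff_cos.comp (h 0))).add
      (Real.contDiff_cos.comp (h 1))).add (Real.contDiff_cos.comp (h 2))
  · exact Real.contDiff_sin.comp (h 0)
  · exact Real.contDiff_sin.comp (h 1)
  · exact Real.contDiff_sin.comp (h 2)

lemma cs_one {x : ℝ} (h : Real.sin x = 0) : Real.cos x = 1 ∨ Real.cos x = -1 := by
  have h1 := Real.sin_sq_add_cos_sq x
  rw [h] at h1
  have h2 : (Real.cos x - 1) * (Real.cos x + 1) = 0 := by linear_combination h1
  rcases mul_eq_zero.mp h2 with h3 | h3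
  · left; linarith
  · right; linarith

lemma Vp_uex : Vp uex where
  smooth := uex_smooth
  per := by
    intro k s
    unfold uex
    have hc : ∀ x : ℝ, Real.cos (2 * Real.pi * (x + 1)) = Real.cos (2 * Real.pi * x) := by
      intro x
      rw [mul_add, mul_one, Real.cos_add_two_pi]
    have hs : ∀ x : ℝ, Real.sin (2 * Real.pi * (x + 1)) = Real.sin (2 * Real.pi * x) := by
      intro x
      rw [mul_add, mul_one, Real.sin_add_two_pi]
    fin_cases k <;> simp [hc, hs]
  ne := by
    intro s h0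
    have e0 : -2 + Real.cos (2 * Real.pi * s 0) + Real.cos (2 * Real.pi * s 1) +
      Real.cos (2 * Real.pi * s 2) = 0 := congrFun h0 0
    have e1 : Real.sin (2 * Real.pi * s 0) = 0 := congrFun h0 1
    have e2 : Real.sin (2 * Real.pi * s 1) = 0 := congrFun h0 2
    have e3 : Real.sin (2 * Real.pi * s 2) = 0 := congrFun h0 3
    rcases cs_one e1 with a | a <;> rcases cs_one e2 with b | b <;> rcases cs_one e3 with c | c <;>
      · rw [a, b, c] at e0; norm_num at e0

lemma Zr_uex {s : R3} (h : Zr uex s) (k : Fin 3) : Real.sin (2 * Real.pi * s k) = 0 ∧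
    Real.cos (2 * Real.pi * s k) = 1 := by
  have e0 : 0 < -2 + Real.cos (2 * Real.pi * s 0) + Real.cos (2 * Real.pi * s 1) +
    Real.cos (2 * Real.pi * s 2) := h.1
  have e1 : Real.sin (2 * Real.pi * s 0) = 0 := h.2 0
  have e2 : Real.sin (2 * Real.pi * s 1) = 0 := h.2 1
  have e3 : Real.sin (2 * Real.pi * s 2) = 0 := h.2 2
  have b0 := Real.cos_le_one (2 * Real.pi * s 0)
  have b1 := Real.cos_le_one (2 * Real.pi * s 1)
  have b2 := Real.cos_le_one (2 * Real.pi * s 2)
  fin_cases k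
  · refine ⟨e1, ?_⟩
    rcases cs_one e1 with a | a
    · exact a
    · rw [a] at e0; linarith
  · refine ⟨e2, ?_⟩
    rcases cs_one e2 with a | a
    · exact a
    · rw [a] at e0; linarith
  · refine ⟨e3, ?_⟩
    rcases cs_one e3 with a | a
    · exact a
    · rw [a] at e0; linarith

lemma Jac_uex (s : R3) : Jac uex s = Matrix.diagonal (fun k : Fin 3 =>
    2 * Real.pi * Real.cos (2 * Real.pi * s k)) := by
  ext j k
  unfold Jac
  rw [Matrix.of_apply]
  have h1 := comp_deriv Vp_uex s j.succ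
  have h2 : fderiv ℝ uex s (Pi.single k 1) j.succ =
      ((ContinuousLinearMap.proj j.succ).comp (fderiv ℝ uex s) : R3 →L[ℝ] ℝ) (Pi.single k 1) := rfl
  rw [h2, ← h1.fderiv]
  have h3 : (fun s => uex s j.succ) = fun s : R3 => Real.sin (2 * Real.pi * s j) := by
    funext s
    fin_cases j <;> rfl
  have h4 : HasFDerivAt (fun s : R3 => Real.sin (2 * Real.pi * s j))
      (Real.cos (2 * Real.pi * s j) • ((2 * Real.pi) •
        (ContinuousLinearMap.proj (R := ℝ) (φ := fun _ : Fin 3 => ℝ) j))) s :=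
    (((ContinuousLinearMap.proj (R := ℝ) (φ := fun _ : Fin 3 => ℝ) j).hasFDerivAt).const_mul
      (2 * Real.pi)).sin
  rw [h3, h4.fderiv]
  simp only [smul_apply, ContinuousLinearMap.proj_apply, smul_eq_mul, Matrix.diagonal_apply,
    Pi.single_apply]
  split_ifs <;> ring

theorem int (hH : S_HOM) (hC : S_CNT) : S_INT := by
  classical
  obtain ⟨c, hc0, hc⟩ := hC
  refine ⟨c, hc0, ⟨uex, Vp_uex, ?_⟩, ?_⟩
  · obtain ⟨Z, hZ, hW⟩ := hc uex Vp_uex (by
      intro s h0 h1
      rw [Jac_uex, Matrix.det_diagonal]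
      have h2 := fun k => (Zr_uex (s := s) ⟨h0, h1⟩ k).2
      simp only [h2, mul_one, Finset.prod_const]
      have := Real.pi_pos
      positivity)
    have h1 : Z = {0} := by
      ext s
      rw [hZ, Finset.mem_singleton]
      constructor
      · rintro ⟨h1, h2, h3⟩
        funext k
        have h4 := (Zr_uex (s := s) ⟨h2, h3⟩ k).2
        rw [Real.cos_eq_one_iff] at h4
        obtain ⟨n, hn⟩ := h4
        have h5 : (n : ℝ) = s k := by
          have hpi : (2 * Real.pi) ≠ 0 := by positivity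
          have : (2 * Real.pi) * (n : ℝ) = (2 * Real.pi) * s k := by linarith
          exact mul_left_cancel₀ hpi this
        obtain ⟨h6, h7⟩ := h1 k
        rw [← h5] at h6 h7
        have h8 : (0 : ℤ) ≤ n := by exact_mod_cast h6
        have h9 : n < 1 := by exact_mod_cast h7
        have : n = 0 := by omega
        rw [← h5, this]
        simp
      · rintro rfl
        refine ⟨fun k => by simp, ?_, ?_⟩
        · simp [uex]; norm_num
        · intro j
          fin_cases j <;> simp [uex]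
    rw [hW, h1, Finset.sum_singleton, Jac_uex, Matrix.det_diagonal]
    have h2 : (0 : ℝ) < ∏ k : Fin 3, 2 * Real.pi * Real.cos (2 * Real.pi * (0 : R3) k) := by
      simp only [Pi.zero_apply, mul_zero, Real.cos_zero, mul_one, Finset.prod_const]
      have := Real.pi_pos
      positivity
    rw [sign_pos h2]
    simp
  · intro u hu
    obtain ⟨v, hv, hreg⟩ := exists_reg hu
    have hcv : cj v ≠ 0 := by
      intro h0
      apply hv
      funext i
      have := congrFun h0
      fin_cases i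
      · exact this 0
      · have := this 1; simpa [cj] using this
      · have := this 2; simpa [cj] using this
      · have := this 3; simpa [cj] using this
    have hV := Vp_pm hu hcv
    obtain ⟨Z, hZ, hW⟩ := hc (fun s => pm (cj v) (u s)) hV (by
      intro s h0 h1
      have hz : Zr (fun s => pm (cj v) (u s)) s := ⟨h0, h1⟩
      have h2 := De_Zr hz
      rw [De_pm hu] at h2
      have h3 : u s = (pm (cj v) (u s) 0 / sqn v) • v := by
        have h4 := pm_cj' v (u s)
        have h5 : pm (cj v) (u s) = (pm (cj v) (u s) 0) • (![1, 0, 0, 0] : Fin 4 → ℝ) := by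
          funext i
          refine Fin.cases ?_ (fun j => ?_) i
          · simp
          · rw [h1 j]; fin_cases j <;> simp
        have h6 : pm v (![1, 0, 0, 0] : Fin 4 → ℝ) = v := by
          funext i
          fin_cases i <;> simp [pm]
        rw [h5, pm_smul, h6] at h4
        have hq := sqn_pos hv
        rw [div_eq_inv_mul, mul_smul]
        have h7 : (pm (cj v) (u s) 0) • v = sqn v • u s := by
          rw [← h4]
        rw [h7, smul_smul, inv_mul_cancel₀ hq.ne', one_smul]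
      have h4 := hreg s _ (div_pos h0 (sqn_pos hv)) h3
      intro h5
      rw [h5, mul_zero] at h2
      have hq := sqn_pos hcv
      have : sqn (cj v) ^ 2 * De u s ≠ 0 := mul_ne_zero (by positivity) h4
      exact this h2)
    refine ⟨∑ s ∈ Z, (SignType.sign (Jac (fun s => pm (cj v) (u s)) s).det : ℤ), ?_⟩
    rw [← W_pm hu hcv, hW, mul_comm]
    congr 1
    rw [Int.cast_sum]

end Pool.Agent.W400.LT
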